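import Pool.Agent.Lib.MP_d1728b_an.Fourier

/-!
# A lower bound for the Lebesgue constants

`lebesgue_lower`: the `L¹` norm of the exponential sum over `{0, ..., N - 1}` is at least
`(4 / π ^ 2) * log (N / 2)`.
-/

set_option autoImplicit false

open Finset Filter Topology MeasureTheory
open Pool.Agent.Littlewood

namespace Pool.Agent.MP_d1728b_an.HLP

/-- The exponential sum over `{0, ..., N - 1}`. -/
noncomputable def DN (N : ℕ) (x : ℝ) : ℂ := ∑ k ∈ range N, E (k : ℤ) x

lemma continuous_DN (N : ℕ) : Continuous (DN N) :=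
  continuous_finsetSum _ fun _ _ => continuous_E _

lemma norm_E_sub_one (d : ℤ) (x : ℝ) : ‖E d x - 1‖ = 2 * |Real.sin (Real.pi * (d * x))| := by
  have h : E d x = Complex.exp (Complex.I * ((2 * (Real.pi * (d * x)) : ℝ) : ℂ)) := by
    unfold E
    congr 1
    push_cast
    ring
  rw [h, Complex.norm_exp_I_mul_ofReal_sub_one, norm_mul, Real.norm_eq_abs, Real.norm_eq_abs,
    abs_of_pos (by norm_num : (0 : ℝ) < 2)]
  congr 3
  ring

lemma DN_mul (N : ℕ) (x : ℝ) : DN N x * (E 1 x - 1) = E (N : ℤ) x - 1 := by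
  have h : ∀ k : ℕ, E (k : ℤ) x = E 1 x ^ k := by
    intro k
    rw [E_pow, one_mul]
  unfold DN
  simp only [h]
  exact geom_sum_mul _ _

/-- The lower bound near the peak. -/
lemma norm_DN_ge (N : ℕ) {x : ℝ} (hx : 0 < x) :
    |Real.sin (Real.pi * (N * x))| / (Real.pi * x) ≤ ‖DN N x‖ := by
  have hpi := Real.pi_pos
  rw [div_le_iff₀ (by positivity)]
  have h1 := congrArg norm (DN_mul N x)
  rw [norm_mul, norm_E_sub_one, norm_E_sub_one] at h1
  push_cast at h1
  rw [one_mul] at h1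
  have h2 : |Real.sin (Real.pi * x)| ≤ Real.pi * x := by
    refine (Real.abs_sin_le_abs).trans (le_of_eq (abs_of_pos (by positivity)))
  have h3 : ‖DN N x‖ * |Real.sin (Real.pi * x)| = |Real.sin (Real.pi * (N * x))| := by linarith
  rw [← h3]
  gcongr

lemma norm_DN_sub (N : ℕ) (x : ℝ) : ‖DN N (1 - x)‖ = ‖DN N x‖ := by
  have h : DN N (1 - x) = (starRingEnd ℂ) (DN N x) := by
    unfold DN
    rw [map_sum]
    refine Finset.sum_congr rfl fun k _ => ?_
    rw [conj_E]
    have h1 := E_periodic (k : ℤ) (-x)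
    have h2 : (1 : ℝ) - x = -x + 1 := by ring
    rw [h2, h1]
    unfold E
    congr 1
    push_cast
    ring
  rw [h, RCLike.norm_conj]

lemma int_half (N : ℕ) : ∫ x in (0 : ℝ)..1, ‖DN N x‖ = 2 * ∫ x in (0 : ℝ)..(1 / 2), ‖DN N x‖ := by
  have hc := (continuous_DN N).norm
  rw [← intervalIntegral.integral_add_adjacent_intervals (hc.intervalIntegrable 0 (1 / 2))
    (hc.intervalIntegrable (1 / 2) 1)]
  have h1 : ∫ x in (1 / 2 : ℝ)..1, ‖DN N x‖ = ∫ x in (0 : ℝ)..(1 / 2), ‖DN N (1 - x)‖ := by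
    rw [intervalIntegral.integral_comp_sub_left (fun x => ‖DN N x‖) 1]
    norm_num
  rw [h1]
  simp only [norm_DN_sub]
  ring

/-- One arch of the sine. -/
lemma int_arch (k : ℕ) : ∫ u in (k : ℝ)..(k + 1), |Real.sin (Real.pi * u)| = 2 / Real.pi := by
  have hper : Function.Periodic (fun u : ℝ => |Real.sin (Real.pi * u)|) 1 := by
    intro u
    simp only
    rw [mul_add, mul_one, Real.sin_add_pi, abs_neg]
  rw [hper.intervalIntegral_add_eq (k : ℝ) 0, zero_add]
  have h1 : ∫ u in (0 : ℝ)..1, |Real.sin (Real.pi * u)| =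
      ∫ u in (0 : ℝ)..1, Real.sin (Real.pi * u) := by
    refine intervalIntegral.integral_congr fun u hu => ?_
    rw [Set.uIcc_of_le zero_le_one] at hu
    refine abs_of_nonneg (Real.sin_nonneg_of_nonneg_of_le_pi ?_ ?_)
    · exact mul_nonneg Real.pi_pos.le hu.1
    · nlinarith [Real.pi_pos, hu.2]
  rw [h1, intervalIntegral.integral_comp_mul_left (fun u => Real.sin u) Real.pi_ne_zero,
    integral_sin]
  simp
  ring

lemma int_piece {N : ℕ} (hN : 1 ≤ N) (k : ℕ) :
    2 / Real.pi ^ 2 * ((k : ℝ) + 1)⁻¹ ≤ ∫ x in ((k : ℝ) / N)..((k + 1) / N), ‖DN N x‖ := by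
  have hN' : (0 : ℝ) < N := by exact_mod_cast hN
  have hpi := Real.pi_pos
  have hle : (k : ℝ) / N ≤ (k + 1) / N := by gcongr; linarith
  have h1 : ∫ x in ((k : ℝ) / N)..((k + 1) / N),
      |Real.sin (Real.pi * (N * x))| * (N / (Real.pi * (k + 1))) ≤
      ∫ x in ((k : ℝ) / N)..((k + 1) / N), ‖DN N x‖ := by
    refine intervalIntegral.integral_mono_on_of_le_Ioo hle ?_ ?_ ?_
    · exact (by fun_prop : Continuous fun x : ℝ =>
        |Real.sin (Real.pi * (N * x))| * (N / (Real.pi * (k + 1)))).intervalIntegrable _ _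
    · exact (continuous_DN N).norm.intervalIntegrable _ _
    · intro x hx
      have hx0 : 0 < x := lt_of_le_of_lt (by positivity) hx.1
      refine le_trans ?_ (norm_DN_ge N hx0)
      rw [div_eq_mul_inv (|Real.sin (Real.pi * (N * x))|)]
      gcongr
      have hx2 : x < (k + 1) / N := hx.2
      rw [lt_div_iff₀ hN'] at hx2
      rw [← one_div, div_le_div_iff₀ (by positivity) (by positivity)]
      nlinarith
  refine le_trans (le_of_eq ?_) h1
  rw [intervalIntegral.integral_mul_const,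
    intervalIntegral.integral_comp_mul_left (fun u => |Real.sin (Real.pi * u)|) hN'.ne']
  have e1 : (N : ℝ) * (k / N) = k := by field_simp
  have e2 : (N : ℝ) * ((k + 1) / N) = k + 1 := by field_simp
  rw [e1, e2, int_arch, smul_eq_mul]
  field_simp

/-- **A lower bound for the Lebesgue constants.** -/
theorem lebesgue_lower {N : ℕ} (hN : 1 ≤ N) :
    4 / Real.pi ^ 2 * Real.log (N / 2) ≤ ∫ x in (0 : ℝ)..1, ‖DN N x‖ := by
  have hN' : (0 : ℝ) < N := by exact_mod_cast hN
  have hpi := Real.pi_pos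
  have hc := (continuous_DN N).norm
  set n := N / 2 with hn
  have h1 : ∑ k ∈ range n, ∫ x in ((k : ℝ) / N)..((k + 1) / N), ‖DN N x‖ =
      ∫ x in (0 : ℝ)..((n : ℝ) / N), ‖DN N x‖ := by
    have := intervalIntegral.sum_integral_adjacent_intervals (f := fun x => ‖DN N x‖)
      (μ := volume) (a := fun k : ℕ => (k : ℝ) / N) (n := n)
      (fun k _ => hc.intervalIntegrable _ _)
    simp only [Nat.cast_zero, zero_div] at this
    rw [← this]
    refine Finset.sum_congr rfl fun k _ => ?_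
    push_cast
    rfl
  have h2 : ∫ x in (0 : ℝ)..((n : ℝ) / N), ‖DN N x‖ ≤ ∫ x in (0 : ℝ)..(1 / 2), ‖DN N x‖ := by
    refine intervalIntegral.integral_mono_interval le_rfl (by positivity) ?_
      (Eventually.of_forall fun x => norm_nonneg _) (hc.intervalIntegrable _ _)
    rw [div_le_iff₀ hN']
    have : ((N / 2 : ℕ) : ℝ) ≤ N / 2 := Nat.cast_div_le
    linarith
  have h3 : ∑ k ∈ range n, 2 / Real.pi ^ 2 * ((k : ℝ) + 1)⁻¹ ≤
      ∑ k ∈ range n, ∫ x in ((k : ℝ) / N)..((k + 1) / N), ‖DN N x‖ :=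
    Finset.sum_le_sum fun k _ => int_piece hN k
  rw [← Finset.mul_sum] at h3
  have h4 : Real.log (N / 2) ≤ ∑ k ∈ range n, ((k : ℝ) + 1)⁻¹ := by
    have h5 := log_add_one_le_harmonic n
    have h6 : ((harmonic n : ℚ) : ℝ) = ∑ k ∈ range n, ((k : ℝ) + 1)⁻¹ := by
      unfold harmonic
      push_cast
      rfl
    rw [← h6]
    refine le_trans (Real.log_le_log (by positivity) ?_) h5
    have : N ≤ 2 * (N / 2) + 1 := by omega
    have : (N : ℝ) ≤ 2 * (n : ℝ) + 1 := by exact_mod_cast this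
    push_cast
    linarith
  rw [int_half]
  have h7 : 2 / Real.pi ^ 2 * Real.log (N / 2) ≤ 2 / Real.pi ^ 2 * ∑ k ∈ range n, ((k : ℝ) + 1)⁻¹ := by
    gcongr
  have h8 : 4 / Real.pi ^ 2 * Real.log (N / 2) = 2 * (2 / Real.pi ^ 2 * Real.log (N / 2)) := by ring
  rw [h8]
  linarith

/-- From the lower bound of the Lebesgue constants to the asymptotic form of the inequality. -/
theorem lebesgue_eps {ε : ℝ} (hε : 0 < ε) : ∃ N₀ : ℕ, ∀ N : ℕ, N₀ ≤ N →
    (4 / Real.pi ^ 2 - ε) * Real.log N ≤ ∫ x in (0 : ℝ)..1, ‖DN N x‖ := by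
  have hpi := Real.pi_pos
  obtain ⟨N₀, hN₀⟩ : ∃ N₀ : ℕ, ∀ N : ℕ, N₀ ≤ N →
      4 / Real.pi ^ 2 * Real.log 2 / ε ≤ Real.log N := by
    have h := Real.tendsto_log_atTop.comp tendsto_natCast_atTop_atTop
    exact eventually_atTop.1 (h.eventually_ge_atTop (4 / Real.pi ^ 2 * Real.log 2 / ε))
  refine ⟨max N₀ 1, fun N hN => ?_⟩
  have h1 := hN₀ N ((le_max_left _ _).trans hN)
  have hN1 : 1 ≤ N := (le_max_right _ _).trans hN
  have hN' : (0 : ℝ) < N := by exact_mod_cast hN1
  refine le_trans ?_ (lebesgue_lower hN1)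
  rw [Real.log_div hN'.ne' (by norm_num)]
  rw [div_le_iff₀ hε] at h1
  nlinarith

end Pool.Agent.MP_d1728b_an.HLP
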