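import Pool.Agent.Lib.MP_d1728b_an.HL.Cert
import Pool.Agent.Lib.MP_d1728b_an.HLP.Leb

/-!
# Part C3: the lower bound for the integral of `log (η + r ‖1 - z‖² w)`

`c3_general`: for a continuous weight `1 ≤ w ≤ B`, `r > 0`, `η > 0`:
`log r + ∫ log w + log (1 + η / (4 r B)) ≤ ∫ log (η + r ‖1 - z‖² w)`.

`c3_pos`: if `0 ≤ log r + ∫ log (1 + s ‖DN N‖²)` then
`0 < ∫ log (η + r (‖1 - z‖² + s ‖1 - z^N‖²))`.
-/

set_option autoImplicit false

open Finset Filter Topology MeasureTheory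
open Pool.Agent.Littlewood

namespace Pool.Agent.MP_d1728b_an.HLP

lemma c3_E_ne_one {x : ℝ} (h0 : 0 < x) (h1 : x < 1) : E 1 x ≠ 1 := by
  intro h
  unfold E at h
  rw [Complex.exp_eq_one_iff] at h
  obtain ⟨n, hn⟩ := h
  have h2 : (x : ℂ) = n := by
    have hpi : (2 * Real.pi * Complex.I : ℂ) ≠ 0 := Complex.two_pi_I_ne_zero
    have h3 : (2 * Real.pi * Complex.I : ℂ) * x = (2 * Real.pi * Complex.I : ℂ) * n := by
      push_cast at hn
      rw [mul_one] at hn
      rw [hn]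
      ring
    exact mul_left_cancel₀ hpi h3
  have h3 : x = (n : ℝ) := by exact_mod_cast h2
  rw [h3] at h0 h1
  have h4 : 0 < n := by exact_mod_cast h0
  have h5 : n < 1 := by exact_mod_cast h1
  omega

lemma c3_norm_le (x : ℝ) : ‖1 - E 1 x‖ ^ 2 ≤ 4 := by
  have h : ‖1 - E 1 x‖ ≤ 2 := by
    refine (norm_sub_le _ _).trans ?_
    rw [norm_one, norm_E]
    norm_num
  nlinarith [norm_nonneg (1 - E 1 x)]

lemma c3_log_one_sub :
    IntervalIntegrable (fun x : ℝ => Real.log ‖1 - E 1 x‖) volume 0 1 ∧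
    0 ≤ ∫ x in (0:ℝ)..1, Real.log ‖1 - E 1 x‖ := by
  have h : ∀ x : ℝ, (1 - Polynomial.X : Polynomial ℂ).eval (E 1 x) = 1 - E 1 x := by
    intro x
    simp
  constructor
  · have := HL.intervalIntegrable_log_poly (1 - Polynomial.X : Polynomial ℂ)
    simpa only [h] using this
  · have h1 := HL.jensen_poly (1 - Polynomial.X : Polynomial ℂ) (by simp)
    simp only [h] at h1
    simpa using h1

theorem c3_general (w : ℝ → ℝ) (hw : Continuous w) (hw1 : ∀ x, 1 ≤ w x) {B : ℝ}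
    (hB : ∀ x, w x ≤ B) {r η : ℝ} (hr : 0 < r) (hη : 0 < η) :
    Real.log r + (∫ x in (0:ℝ)..1, Real.log (w x)) + Real.log (1 + η / (4 * r * B)) ≤
      ∫ x in (0:ℝ)..1, Real.log (η + r * ‖1 - E 1 x‖ ^ 2 * w x) := by
  have hBpos : 0 < B := lt_of_lt_of_le one_pos ((hw1 0).trans (hB 0))
  have hM : 0 < 4 * r * B := by positivity
  obtain ⟨hi, hj⟩ := c3_log_one_sub
  have hc : Continuous fun x : ℝ => ‖1 - E 1 x‖ ^ 2 :=
    ((continuous_const.sub (continuous_E 1)).norm).pow 2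
  have hwpos : ∀ x, 0 < w x := fun x => lt_of_lt_of_le one_pos (hw1 x)
  have hlw : IntervalIntegrable (fun x : ℝ => Real.log (w x)) volume 0 1 :=
    (hw.log fun x => (hwpos x).ne').intervalIntegrable 0 1
  have hR : IntervalIntegrable (fun x : ℝ => Real.log (η + r * ‖1 - E 1 x‖ ^ 2 * w x))
      volume 0 1 := by
    refine Continuous.intervalIntegrable ?_ 0 1
    refine Continuous.log (by fun_prop) fun x => ?_
    have h1 : 0 ≤ r * ‖1 - E 1 x‖ ^ 2 * w x :=
      mul_nonneg (mul_nonneg hr.le (sq_nonneg _)) (hwpos x).le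
    exact (lt_of_lt_of_le hη (le_add_of_nonneg_right h1)).ne'
  have hL : IntervalIntegrable (fun x : ℝ => Real.log r + 2 * Real.log ‖1 - E 1 x‖ +
      Real.log (w x) + Real.log (1 + η / (4 * r * B))) volume 0 1 :=
    ((intervalIntegrable_const.add (hi.const_mul 2)).add hlw).add intervalIntegrable_const
  have h1 : ∫ x in (0:ℝ)..1, (Real.log r + 2 * Real.log ‖1 - E 1 x‖ +
      Real.log (w x) + Real.log (1 + η / (4 * r * B))) =
      Real.log r + 2 * (∫ x in (0:ℝ)..1, Real.log ‖1 - E 1 x‖) +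
      (∫ x in (0:ℝ)..1, Real.log (w x)) + Real.log (1 + η / (4 * r * B)) := by
    rw [intervalIntegral.integral_add
      ((intervalIntegrable_const.add (hi.const_mul 2)).add hlw) intervalIntegrable_const,
      intervalIntegral.integral_add (intervalIntegrable_const.add (hi.const_mul 2)) hlw,
      intervalIntegral.integral_add intervalIntegrable_const (hi.const_mul 2),
      intervalIntegral.integral_const_mul, intervalIntegral.integral_const,
      intervalIntegral.integral_const]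
    simp
  have h2 : ∫ x in (0:ℝ)..1, (Real.log r + 2 * Real.log ‖1 - E 1 x‖ +
      Real.log (w x) + Real.log (1 + η / (4 * r * B))) ≤
      ∫ x in (0:ℝ)..1, Real.log (η + r * ‖1 - E 1 x‖ ^ 2 * w x) := by
    refine intervalIntegral.integral_mono_on_of_le_Ioo zero_le_one hL hR fun x hx => ?_
    have hne : 0 < ‖1 - E 1 x‖ := norm_pos_iff.2 (sub_ne_zero.2 (c3_E_ne_one hx.1 hx.2).symm)
    have hg : 0 < r * ‖1 - E 1 x‖ ^ 2 * w x := mul_pos (mul_pos hr (pow_pos hne 2)) (hwpos x)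
    have hgM : r * ‖1 - E 1 x‖ ^ 2 * w x ≤ 4 * r * B := by
      have := c3_norm_le x
      calc r * ‖1 - E 1 x‖ ^ 2 * w x ≤ r * 4 * B := by
            refine mul_le_mul ?_ (hB x) (hwpos x).le (by positivity)
            exact mul_le_mul_of_nonneg_left this hr.le
        _ = 4 * r * B := by ring
    have h3 : Real.log r + 2 * Real.log ‖1 - E 1 x‖ + Real.log (w x) =
        Real.log (r * ‖1 - E 1 x‖ ^ 2 * w x) := by
      rw [Real.log_mul (mul_pos hr (pow_pos hne 2)).ne' (hwpos x).ne',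
        Real.log_mul hr.ne' (pow_pos hne 2).ne', Real.log_pow]
      push_cast
      ring
    have h4 : 0 < 1 + η / (4 * r * B) := by positivity
    rw [h3, ← Real.log_mul hg.ne' h4.ne']
    refine Real.log_le_log (mul_pos hg h4) ?_
    have h5 : r * ‖1 - E 1 x‖ ^ 2 * w x * (η / (4 * r * B)) ≤ η := by
      rw [mul_div_assoc', div_le_iff₀ hM, mul_comm]
      exact mul_le_mul_of_nonneg_left hgM hη.le
    linarith
  rw [h1] at h2
  linarith

lemma c3_norm_DN_le (N : ℕ) (x : ℝ) : ‖DN N x‖ ≤ N := by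
  unfold DN
  refine (norm_sum_le _ _).trans ?_
  simp only [norm_E]
  simp

lemma c3_identity (N : ℕ) (s r η x : ℝ) :
    η + r * ‖1 - E 1 x‖ ^ 2 * (1 + s * ‖DN N x‖ ^ 2) =
      η + r * (‖1 - E 1 x‖ ^ 2 + s * ‖1 - E (N : ℤ) x‖ ^ 2) := by
  have h := congrArg norm (DN_mul N x)
  rw [norm_mul, norm_sub_rev (E 1 x), norm_sub_rev (E (N : ℤ) x)] at h
  rw [← h]
  ring

/-- **Part C3.** -/
theorem c3_pos (N : ℕ) {s r η : ℝ} (hs : 0 ≤ s) (hr : 0 < r) (hη : 0 < η)
    (h : 0 ≤ Real.log r + ∫ x in (0:ℝ)..1, Real.log (1 + s * ‖DN N x‖ ^ 2)) :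
    0 < ∫ x in (0:ℝ)..1,
      Real.log (η + r * (‖1 - E 1 x‖ ^ 2 + s * ‖1 - E (N : ℤ) x‖ ^ 2)) := by
  have h1 := c3_general (fun x => 1 + s * ‖DN N x‖ ^ 2)
    (continuous_const.add (continuous_const.mul ((continuous_DN N).norm.pow 2)))
    (fun x => le_add_of_nonneg_right (mul_nonneg hs (sq_nonneg _)))
    (B := 1 + s * (N : ℝ) ^ 2)
    (fun x => by
      have h2 : ‖DN N x‖ ^ 2 ≤ (N : ℝ) ^ 2 :=
        pow_le_pow_left₀ (norm_nonneg _) (c3_norm_DN_le N x) 2
      have := mul_le_mul_of_nonneg_left h2 hs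
      linarith) hr hη
  simp only [c3_identity] at h1
  refine lt_of_lt_of_le ?_ h1
  have h3 : 0 < Real.log (1 + η / (4 * r * (1 + s * (N : ℝ) ^ 2))) := by
    apply Real.log_pos
    have : 0 < η / (4 * r * (1 + s * (N : ℝ) ^ 2)) := by positivity
    linarith
  linarith

end Pool.Agent.MP_d1728b_an.HLP
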