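import Pool.Agent.Lib.MP_d1728b_an.HL.CertMain

/-!
# The strong Littlewood conjecture: the energy argument, definitions

Notation: `w = 1 + s ‖F_A‖²` on the circle, `E(f) = ∫ ‖f‖² / w`, `lam w m` the infimum of `E` over the integer
polynomials `f` with `f(1) = m`. A finitely supported law `q` on `{1,2,...}`, signs `k a = ± a`, is feasible
(`Feas`) if `q m - c_m(q) ≤ r (1_{m=1} + s 1_{m=N})`, `c_m(q) = ∑ over unordered pairs {a,b} with |k a - k b| = m
of q a * q b`.
-/

set_option autoImplicit false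

open Finset Filter Topology MeasureTheory
open Pool.Agent.Littlewood
open Pool.Agent.MP_d1728b_an.HL (F)

namespace Pool.Agent.MP_d1728b_an.HLP

/-- the value of a real polynomial at `exp (2πix)` -/
noncomputable def ev (f : Polynomial ℝ) (x : ℝ) : ℂ := Polynomial.aeval (E 1 x) f

/-- the energy of a real polynomial -/
noncomputable def en (w : ℝ → ℝ) (f : Polynomial ℝ) : ℝ := ∫ x in (0:ℝ)..1, ‖ev f x‖ ^ 2 / w x

/-- integer polynomials as real polynomials -/
noncomputable def zr (f : Polynomial ℤ) : Polynomial ℝ := f.map (Int.castRingHom ℝ)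

/-- the least energy of the integer polynomials with value `m` at `1` -/
noncomputable def lam (w : ℝ → ℝ) (m : ℤ) : ℝ :=
  ⨅ f : {f : Polynomial ℤ // f.eval 1 = m}, en w (zr (f : Polynomial ℤ))

/-- twice `c_m(q)` -/
noncomputable def cc (k : ℕ → ℤ) (K : Finset ℕ) (q : ℕ → ℝ) (m : ℕ) : ℝ :=
  ∑ a ∈ K, ∑ b ∈ K, if (k a - k b).natAbs = m then q a * q b else 0

/-- `r (1_{m=1} + s 1_{m=N})` -/
noncomputable def rhs (N : ℕ) (s r : ℝ) (m : ℕ) : ℝ :=
  (if m = 1 then r else 0) + (if m = N then r * s else 0)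

/-- feasible laws -/
structure Feas (N : ℕ) (s r : ℝ) (k : ℕ → ℤ) (K : Finset ℕ) (q : ℕ → ℝ) : Prop where
  zero : 0 ∉ K
  nonneg : ∀ a, 0 ≤ q a
  supp : ∀ a, a ∉ K → q a = 0
  mass : ∑ a ∈ K, q a ≤ 1
  ineq : ∀ m, 1 ≤ m → q m ≤ rhs N s r m + cc k K q m / 2

end Pool.Agent.MP_d1728b_an.HLP
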