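import Pool.Agent.Lib.MP_d1728b_an.HLP.Defs

/-!
# Part A: the least energies `lam w m`
-/

set_option autoImplicit false

open Finset Filter Topology MeasureTheory
open Pool.Agent.Littlewood
open Pool.Agent.MP_d1728b_an.HL (F)

namespace Pool.Agent.MP_d1728b_an.HLP

theorem en_nonneg {w : ℝ → ℝ} (hw1 : ∀ x, 1 ≤ w x) (f : Polynomial ℝ) : 0 ≤ en w f :=
  intervalIntegral.integral_nonneg zero_le_one fun x _ =>
    div_nonneg (sq_nonneg _) (zero_le_one.trans (hw1 x))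

theorem lam_nonneg {w : ℝ → ℝ} (hw1 : ∀ x, 1 ≤ w x) (m : ℤ) : 0 ≤ lam w m :=
  Real.iInf_nonneg fun _ => en_nonneg hw1 _

theorem lam_le {w : ℝ → ℝ} (hw1 : ∀ x, 1 ≤ w x) (f : Polynomial ℤ) : lam w (f.eval 1) ≤ en w (zr f) := by
  refine ciInf_le (f := fun g : {g : Polynomial ℤ // g.eval 1 = f.eval 1} =>
    en w (zr (g : Polynomial ℤ))) ⟨0, ?_⟩ ⟨f, rfl⟩
  rintro _ ⟨g, rfl⟩
  exact en_nonneg hw1 _

private theorem ev_neg (f : Polynomial ℝ) (x : ℝ) : ev (-f) x = -ev f x := by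
  unfold ev
  rw [map_neg]

private theorem zr_neg (f : Polynomial ℤ) : zr (-f) = -zr f := by
  unfold zr
  rw [Polynomial.map_neg]

private theorem en_zr_neg (w : ℝ → ℝ) (f : Polynomial ℤ) : en w (zr (-f)) = en w (zr f) := by
  unfold en
  rw [zr_neg]
  simp_rw [ev_neg, norm_neg]

private theorem lam_neg_le {w : ℝ → ℝ} (hw1 : ∀ x, 1 ≤ w x) (m : ℤ) : lam w (-m) ≤ lam w m := by
  have : Nonempty {f : Polynomial ℤ // f.eval 1 = m} := ⟨⟨Polynomial.C m, Polynomial.eval_C⟩⟩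
  refine le_ciInf fun f => ?_
  have h := lam_le hw1 (-(f : Polynomial ℤ))
  rwa [Polynomial.eval_neg, f.2, en_zr_neg] at h

private theorem lam_neg {w : ℝ → ℝ} (hw1 : ∀ x, 1 ≤ w x) (m : ℤ) : lam w (-m) = lam w m := by
  refine le_antisymm (lam_neg_le hw1 m) ?_
  have h := lam_neg_le hw1 (-m)
  rwa [neg_neg] at h

/-- `f ↦ - f` -/
theorem lam_natAbs {w : ℝ → ℝ} (hw1 : ∀ x, 1 ≤ w x) (m : ℤ) : lam w (m.natAbs : ℤ) = lam w m := by
  rcases le_total 0 m with h | h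
  · rw [Int.natAbs_of_nonneg h]
  · rw [Int.ofNat_natAbs_of_nonpos h, lam_neg hw1]

theorem lam_zero {w : ℝ → ℝ} (hw1 : ∀ x, 1 ≤ w x) : lam w 0 = 0 := by
  refine le_antisymm ?_ (lam_nonneg hw1 0)
  have h := lam_le hw1 0
  rw [Polynomial.eval_zero] at h
  refine h.trans_eq ?_
  unfold en zr ev
  simp

private theorem en_zr_X_pow_mul (w : ℝ → ℝ) (n : ℕ) (f : Polynomial ℤ) :
    en w (zr (Polynomial.X ^ n * f)) = en w (zr f) := by
  have h : ∀ x, ‖ev (zr (Polynomial.X ^ n * f)) x‖ = ‖ev (zr f) x‖ := by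
    intro x
    unfold ev zr
    rw [Polynomial.map_mul, Polynomial.map_pow, Polynomial.map_X, map_mul, map_pow,
      Polynomial.aeval_X, norm_mul, norm_pow, norm_E, one_pow, one_mul]
  unfold en
  simp_rw [h]

/-- Near minimizers, divided by a power of `X` and with the sign which makes the constant coefficient
positive. `en` is invariant under multiplication by `X ^ j` because `‖E 1 x‖ = 1`. -/
theorem exists_near {w : ℝ → ℝ} (hw1 : ∀ x, 1 ≤ w x) {ε : ℝ} (hε : 0 < ε) {m : ℕ} (hm : 1 ≤ m) :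
    ∃ L : Polynomial ℤ, (L.eval 1).natAbs = m ∧ 1 ≤ L.coeff 0 ∧ en w (zr L) ≤ lam w m + ε := by
  have : Nonempty {f : Polynomial ℤ // f.eval 1 = (m : ℤ)} :=
    ⟨⟨Polynomial.C (m : ℤ), Polynomial.eval_C⟩⟩
  have h0 : lam w m < lam w m + ε := by linarith
  obtain ⟨⟨f, hf⟩, h1⟩ := exists_lt_of_ciInf_lt
    (f := fun f : {f : Polynomial ℤ // f.eval 1 = (m : ℤ)} => en w (zr (f : Polynomial ℤ))) h0
  have hf0 : f ≠ 0 := by
    rintro rfl
    rw [Polynomial.eval_zero] at hf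
    omega
  obtain ⟨g, hg1, hg2⟩ := Polynomial.exists_eq_pow_rootMultiplicity_mul_and_not_dvd f hf0 0
  rw [Polynomial.C_0, sub_zero] at hg1 hg2
  rw [Polynomial.X_dvd_iff] at hg2
  have hg3 : g.eval 1 = m := by
    rw [← hf, hg1, Polynomial.eval_mul, Polynomial.eval_pow, Polynomial.eval_X, one_pow, one_mul]
  have hg4 : en w (zr g) ≤ lam w m + ε := by
    rw [← en_zr_X_pow_mul w (f.rootMultiplicity 0) g, ← hg1]
    exact h1.le
  rcases lt_or_gt_of_ne hg2 with h2 | h2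
  · refine ⟨-g, ?_, ?_, ?_⟩
    · rw [Polynomial.eval_neg, hg3]
      omega
    · rw [Polynomial.coeff_neg]
      omega
    · rw [en_zr_neg]
      exact hg4
  · refine ⟨g, ?_, h2, hg4⟩
    rw [hg3]
    omega

private theorem exists_shift (A : Finset ℤ) : ∃ b : ℤ, ∀ a ∈ A, 0 ≤ a + b := by
  refine ⟨∑ a ∈ A, |a|, fun a ha => ?_⟩
  have h1 : |a| ≤ ∑ c ∈ A, |c| := Finset.single_le_sum (f := fun c : ℤ => |c|) (fun c _ => abs_nonneg c) ha
  have h2 := neg_abs_le a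
  linarith

/-- `∫ (1 + s ‖F‖²) / w = 1`; `F A = E (-b) * ev f` with `f = ∑ a ∈ A, X ^ (a + b).toNat`. -/
theorem lam_one_add {A : Finset ℤ} {s : ℝ} (hs : 0 < s) :
    lam (fun x => 1 + s * ‖F A x‖ ^ 2) 1 + s * lam (fun x => 1 + s * ‖F A x‖ ^ 2) (A.card : ℤ) ≤ 1 := by
  set w : ℝ → ℝ := fun x => 1 + s * ‖F A x‖ ^ 2 with hw
  have hw1 : ∀ x, 1 ≤ w x := by
    intro x
    have : 0 ≤ s * ‖F A x‖ ^ 2 := mul_nonneg hs.le (sq_nonneg _)
    simp only [hw]
    linarith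
  have hwc : Continuous w :=
    continuous_const.add (continuous_const.mul ((HL.continuous_F A).norm.pow 2))
  have hw0 : ∀ x, w x ≠ 0 := fun x => (zero_lt_one.trans_le (hw1 x)).ne'
  obtain ⟨b, hb⟩ := exists_shift A
  have h1 : lam w 1 ≤ ∫ x in (0:ℝ)..1, 1 / w x := by
    have h := lam_le hw1 1
    rw [Polynomial.eval_one] at h
    refine h.trans_eq ?_
    unfold en zr ev
    simp
  have h2 : lam w (A.card : ℤ) ≤ ∫ x in (0:ℝ)..1, ‖F A x‖ ^ 2 / w x := by
    have h := lam_le hw1 (∑ a ∈ A, Polynomial.X ^ (a + b).toNat)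
    have h3 : (∑ a ∈ A, (Polynomial.X : Polynomial ℤ) ^ (a + b).toNat).eval 1 = (A.card : ℤ) := by
      rw [Polynomial.eval_finsetSum]
      simp
    rw [h3] at h
    refine h.trans_eq ?_
    unfold en
    congr 1
    funext x
    have h4 : ev (zr (∑ a ∈ A, (Polynomial.X : Polynomial ℤ) ^ (a + b).toNat)) x = E b x * F A x := by
      unfold ev zr F
      rw [Polynomial.map_sum, map_sum, Finset.mul_sum]
      refine Finset.sum_congr rfl fun a ha => ?_
      rw [Polynomial.map_pow, Polynomial.map_X, map_pow, Polynomial.aeval_X, E_pow, one_mul,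
        Int.toNat_of_nonneg (hb a ha), E_add, mul_comm]
    rw [h4, norm_mul, norm_E, one_mul]
  have hi1 : IntervalIntegrable (fun x => 1 / w x) volume 0 1 :=
    (continuous_const.div hwc hw0).intervalIntegrable _ _
  have hi2 : IntervalIntegrable (fun x => s * (‖F A x‖ ^ 2 / w x)) volume 0 1 :=
    (continuous_const.mul (((HL.continuous_F A).norm.pow 2).div hwc hw0)).intervalIntegrable _ _
  have h5 : (∫ x in (0:ℝ)..1, 1 / w x) + s * ∫ x in (0:ℝ)..1, ‖F A x‖ ^ 2 / w x = 1 := by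
    rw [← intervalIntegral.integral_const_mul, ← intervalIntegral.integral_add hi1 hi2]
    have h6 : ∀ x, 1 / w x + s * (‖F A x‖ ^ 2 / w x) = 1 := by
      intro x
      have h7 := hw0 x
      field_simp
      simp only [hw]
    simp_rw [h6]
    simp
  have h6 : s * lam w (A.card : ℤ) ≤ s * ∫ x in (0:ℝ)..1, ‖F A x‖ ^ 2 / w x :=
    mul_le_mul_of_nonneg_left h2 hs.le
  linarith

end Pool.Agent.MP_d1728b_an.HLP
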