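import Pool.Agent.Lib.MP_d1728b_an.Fourier

/-!
# `∫ log |1 - P|² ≤ 0` for a trigonometric polynomial `P` with nonnegative coefficients of sum `< 1`
-/

set_option autoImplicit false

open Finset MeasureTheory
open Pool.Agent.Littlewood

namespace Pool.Agent.MP_d1728b_an.HLP

lemma continuous_trig {ι : Type*} (s : Finset ι) (k : ι → ℤ) (p : ι → ℝ) :
    Continuous fun x : ℝ => ∑ i ∈ s, (p i : ℂ) * E (k i) x :=
  continuous_finsetSum _ fun i _ => continuous_const.mul (continuous_E (k i))

lemma re_integral_pow_nonneg {ι : Type*} (s : Finset ι) (k : ι → ℤ) (p : ι → ℝ)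
    (hp : ∀ i ∈ s, 0 ≤ p i) (n : ℕ) : ∀ m : ℤ,
    0 ≤ (∫ x in (0:ℝ)..1, (∑ i ∈ s, (p i : ℂ) * E (k i) x) ^ n * E m x).re := by
  have hc := continuous_trig s k p
  induction n with
  | zero =>
    intro m
    simp only [pow_zero, one_mul]
    rw [integral_E]
    split_ifs <;> simp
  | succ n ih =>
    intro m
    have h1 : ∀ x : ℝ, (∑ i ∈ s, (p i : ℂ) * E (k i) x) ^ (n + 1) * E m x =
        ∑ i ∈ s, (p i : ℂ) * ((∑ i ∈ s, (p i : ℂ) * E (k i) x) ^ n * E (k i + m) x) := by
      intro x
      rw [pow_succ, mul_assoc, Finset.sum_mul, Finset.mul_sum]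
      refine Finset.sum_congr rfl fun i _ => ?_
      rw [E_add]
      ring
    simp_rw [h1]
    rw [intervalIntegral.integral_finsetSum fun i _ =>
      (Continuous.intervalIntegrable (by have := continuous_E (k i + m); fun_prop) _ _)]
    rw [Complex.re_sum]
    refine Finset.sum_nonneg fun i hi => ?_
    rw [intervalIntegral.integral_const_mul, Complex.re_ofReal_mul]
    exact mul_nonneg (hp i hi) (ih _)

theorem integral_log_one_sub_nonpos {ι : Type*} (s : Finset ι) (k : ι → ℤ) (p : ι → ℝ)
    (hp : ∀ i ∈ s, 0 ≤ p i) (hsum : ∑ i ∈ s, p i < 1) :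
    ∫ x in (0:ℝ)..1, Real.log (‖1 - ∑ i ∈ s, (p i : ℂ) * E (k i) x‖ ^ 2) ≤ 0 := by
  set P : ℝ → ℂ := fun x => ∑ i ∈ s, (p i : ℂ) * E (k i) x with hP
  have hPc : Continuous P := continuous_trig s k p
  set Q : ℝ := ∑ i ∈ s, p i with hQ
  have hQ0 : 0 ≤ Q := Finset.sum_nonneg hp
  have hPQ : ∀ x, ‖P x‖ ≤ Q := by
    intro x
    refine (norm_sum_le _ _).trans (Finset.sum_le_sum fun i hi => ?_)
    rw [norm_mul, norm_E, mul_one, Complex.norm_real, Real.norm_eq_abs, abs_of_nonneg (hp i hi)]
  have hP1 : ∀ x, ‖P x‖ < 1 := fun x => (hPQ x).trans_lt hsum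
  have hterm : ∀ x, HasSum (fun n : ℕ => P x ^ n / n) (-Complex.log (1 - P x)) := fun x =>
    Complex.hasSum_taylorSeries_neg_log (hP1 x)
  have hI : HasSum (fun n : ℕ => ∫ x in (0:ℝ)..1, P x ^ n / n)
      (∫ x in (0:ℝ)..1, -Complex.log (1 - P x)) := by
    refine intervalIntegral.hasSum_integral_of_dominated_convergence (fun n _ => Q ^ n) ?_ ?_ ?_ ?_ ?_
    · intro n
      exact (Continuous.aestronglyMeasurable (by fun_prop))
    · intro n
      refine Filter.Eventually.of_forall fun x _ => ?_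
      rw [norm_div, norm_pow, Complex.norm_natCast]
      rcases Nat.eq_zero_or_pos n with rfl | hn
      · simp
      · have h1 : (1:ℝ) ≤ n := by exact_mod_cast hn
        calc ‖P x‖ ^ n / n ≤ ‖P x‖ ^ n / 1 := by
              exact div_le_div_of_nonneg_left (by positivity) one_pos h1
          _ ≤ Q ^ n := by
              rw [div_one]
              exact pow_le_pow_left₀ (norm_nonneg _) (hPQ x) n
    · exact Filter.Eventually.of_forall fun x _ => summable_geometric_of_lt_one hQ0 hsum
    · simp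
    · exact Filter.Eventually.of_forall fun x _ => hterm x
  have hre : 0 ≤ (∫ x in (0:ℝ)..1, -Complex.log (1 - P x)).re := by
    have h2 := hI.mapL Complex.reCLM
    refine h2.nonneg fun n => ?_
    have h3 := re_integral_pow_nonneg s k p hp n 0
    simp only [E_zero, mul_one] at h3
    have h4 : (∫ x in (0:ℝ)..1, P x ^ n / n) = ((1 / (n:ℝ) : ℝ) : ℂ) * ∫ x in (0:ℝ)..1, P x ^ n := by
      rw [← intervalIntegral.integral_const_mul]
      refine intervalIntegral.integral_congr fun x _ => ?_
      push_cast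
      ring
    rw [h4, Complex.reCLM_apply, Complex.re_ofReal_mul]
    exact mul_nonneg (by positivity) h3
  have hslit : ∀ x, 1 - P x ∈ Complex.slitPlane := fun x => by
    have := Complex.mem_slitPlane_of_norm_lt_one (z := -P x) (by rw [norm_neg]; exact hP1 x)
    rwa [← sub_eq_add_neg] at this
  have hcl : Continuous fun x => Complex.log (1 - P x) :=
    Continuous.clog (continuous_const.sub hPc) hslit
  have h5 : (∫ x in (0:ℝ)..1, -Complex.log (1 - P x)).re =
      ∫ x in (0:ℝ)..1, -Real.log ‖1 - P x‖ := by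
    have hcl' : Continuous fun x => -Complex.log (1 - P x) := hcl.neg
    have h6 := Complex.reCLM.intervalIntegral_comp_comm
      (hcl'.intervalIntegrable (μ := volume) 0 1)
    rw [← Complex.reCLM_apply, ← h6]
    refine intervalIntegral.integral_congr fun x _ => ?_
    simp [Complex.log_re]
  rw [h5, intervalIntegral.integral_neg] at hre
  have h7 : ∫ x in (0:ℝ)..1, Real.log (‖1 - P x‖ ^ 2) = 2 * ∫ x in (0:ℝ)..1, Real.log ‖1 - P x‖ := by
    rw [← intervalIntegral.integral_const_mul]
    refine intervalIntegral.integral_congr fun x _ => ?_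
    simp
  rw [h7]
  linarith

end Pool.Agent.MP_d1728b_an.HLP
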