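import Pool.Agent.Lib.MP_d1728b_an.HLP.Defs
import Pool.Agent.Lib.MP_d1728b_an.HLP.C3

/-!
# Part C3: `0 < ∫ log (δ + r ‖1 - z‖² (1 + s ‖D‖²))` if `log r + ∫ log (1 + s ‖D‖²) = 0`
-/

set_option autoImplicit false

open Finset Filter Topology MeasureTheory
open Pool.Agent.Littlewood
open Pool.Agent.MP_d1728b_an.HL (F)

namespace Pool.Agent.MP_d1728b_an.HLP

/-- the two notations for the Dirichlet kernel -/
theorem F_Ico_eq_DN (N : ℕ) (x : ℝ) : F (Finset.Ico 0 (N : ℤ)) x = DN N x := by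
  have h3 : Finset.Ico (0 : ℤ) (N : ℤ) = (Finset.range N).map Nat.castEmbedding := by
    ext y
    simp only [Finset.mem_Ico, Finset.mem_map, Finset.mem_range, Nat.castEmbedding_apply]
    constructor
    · rintro ⟨h0, h1⟩
      exact ⟨y.toNat, by omega, by omega⟩
    · rintro ⟨k, hk, rfl⟩
      omega
  unfold F DN
  rw [h3, Finset.sum_map]
  rfl

/-- `(1 - z) D(z) = 1 - z^N` -/
theorem norm_one_sub_mul (N : ℕ) (x : ℝ) :
    ‖1 - E 1 x‖ ^ 2 * ‖F (Finset.Ico 0 (N : ℤ)) x‖ ^ 2 = ‖1 - E (N : ℤ) x‖ ^ 2 := by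
  have h := congrArg norm (DN_mul N x)
  rw [norm_mul, norm_sub_rev (E 1 x), norm_sub_rev (E (N : ℤ) x)] at h
  rw [F_Ico_eq_DN, ← h]
  ring

/-- Jensen: `∫ log ‖1 - z‖² ≥ 0`; one can use `HL.jensen_poly` with `p = 1 - X` -/
theorem log_one_sub_nonneg : 0 ≤ ∫ x in (0:ℝ)..1, Real.log (‖1 - E 1 x‖ ^ 2) := by
  have h := c3_log_one_sub.2
  have h1 : (fun x : ℝ => Real.log (‖1 - E 1 x‖ ^ 2)) = fun x => 2 * Real.log ‖1 - E 1 x‖ := by
    funext x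
    rw [Real.log_pow]
    norm_num
  rw [h1, intervalIntegral.integral_const_mul]
  linarith

/-- First `0 < ∫ log (δ + r (..))` (`log (δ + y) ≥ log y + log (1 + δ / Y)` for `0 < y ≤ Y`), then continuity in
`δ`: `log (δ - η + y) ≥ log (δ + y) - η / (δ - η)` for `y ≥ 0`. -/
theorem log_pos (N : ℕ) {s r δ : ℝ} (hs : 0 < s) (hr : 0 < r) (hδ : 0 < δ)
    (h : 0 ≤ Real.log r + ∫ x in (0:ℝ)..1, Real.log (1 + s * ‖F (Finset.Ico 0 (N : ℤ)) x‖ ^ 2)) :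
    ∃ η : ℝ, 0 < η ∧ η < δ ∧
      0 < ∫ x in (0:ℝ)..1, Real.log (δ - η + r * (‖1 - E 1 x‖ ^ 2 + s * ‖1 - E (N : ℤ) x‖ ^ 2)) := by
  simp only [F_Ico_eq_DN] at h
  refine ⟨δ / 2, by linarith, by linarith, ?_⟩
  exact c3_pos N hs.le hr (by linarith) h

end Pool.Agent.MP_d1728b_an.HLP
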