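import Pool.Agent.Lib.MP_d1728b_an.HLP.Step
import Pool.Agent.Lib.MP_d1728b_an.HLP.LogNeg
import Pool.Agent.Lib.MP_d1728b_an.HLP.LogPos

/-!
# Part C: feasible laws of mass close to `1`
-/

set_option autoImplicit false

open Finset Filter Topology MeasureTheory
open Pool.Agent.Littlewood
open Pool.Agent.MP_d1728b_an.HL (F)

namespace Pool.Agent.MP_d1728b_an.HLP

/-- Let `Q*` be the supremum of the masses of feasible laws; if `Q* ≤ 1 - δ` take a feasible law of mass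
`> Q* - η/4`, `step` (the second case is impossible) gives `∑ T q ≤ Q*`, so `∑ (T q - q) < η/4`, and `one_sub_sq`,
`log_nonpos`, `log_pos` (with `δ²` in place of `δ`) contradict each other. -/
theorem exists_feas {N : ℕ} {s r : ℝ} {k : ℕ → ℤ} (hN : 1 ≤ N) (hs : 0 < s) (hr : 0 < r)
    (hk : ∀ a, (k a).natAbs = a)
    (h : 0 ≤ Real.log r + ∫ x in (0:ℝ)..1, Real.log (1 + s * ‖F (Finset.Ico 0 (N : ℤ)) x‖ ^ 2))
    {δ : ℝ} (hδ : 0 < δ) :
    ∃ (K : Finset ℕ) (q : ℕ → ℝ), Feas N s r k K q ∧ 1 - δ < ∑ a ∈ K, q a := by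
  by_contra hcon
  push Not at hcon
  obtain ⟨η, hη0, hηδ, hpos⟩ := log_pos N hs hr (show 0 < δ ^ 2 by positivity) h
  set S : Set ℝ := {t | ∃ (K : Finset ℕ) (q : ℕ → ℝ), Feas N s r k K q ∧ t = ∑ a ∈ K, q a} with hS
  have hne : S.Nonempty := by
    refine ⟨0, ∅, fun _ => 0, ⟨by simp, fun _ => le_refl 0, fun _ _ => rfl, by simp, ?_⟩, by simp⟩
    intro m _
    have h1 := rhs_nonneg (N := N) hs.le hr.le m
    have h2 := cc_nonneg (k := k) (K := ∅) (q := fun _ => 0) (fun _ => le_refl 0) m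
    linarith
  have hbdd : BddAbove S := ⟨1 - δ, by
    rintro t ⟨K, q, hq, rfl⟩
    exact hcon K q hq⟩
  obtain ⟨t, ⟨K, q, hq, rfl⟩, ht⟩ := exists_lt_of_lt_csSup hne (show sSup S - η / 4 < sSup S by linarith)
  obtain ⟨K', hKK, h0, h1, hNK, hsupp⟩ := exists_supp N s r hk K q hq.zero
  have hNK' : N ∈ K' := hNK (by omega)
  obtain ⟨_, hstep | ⟨q', hq', hmass⟩⟩ := step hs hr.le hk hq hKK h0 hsupp
  · have h2 : ∑ a ∈ K', tq N s r k K q a ≤ sSup S := le_csSup hbdd ⟨K', _, hstep.2, rfl⟩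
    have hQ : ∑ a ∈ K, q a ≤ 1 - δ := hcon K q hq
    have h3 : ∀ x : ℝ, δ ^ 2 - η + r * (‖1 - E 1 x‖ ^ 2 + s * ‖1 - E (N : ℤ) x‖ ^ 2) ≤
        ‖1 - ∑ a ∈ K, (q a : ℂ) * E (k a) x‖ ^ 2 := by
      intro x
      refine le_trans ?_ (one_sub_sq hN hs hr.le hk hq hKK h0 h1 hNK' hsupp x)
      have h4 : δ ^ 2 ≤ (1 - ∑ a ∈ K, q a) ^ 2 := by
        gcongr
        linarith
      linarith
    have h5 : ∀ x : ℝ, 0 < δ ^ 2 - η + r * (‖1 - E 1 x‖ ^ 2 + s * ‖1 - E (N : ℤ) x‖ ^ 2) := by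
      intro x
      have : 0 ≤ r * (‖1 - E 1 x‖ ^ 2 + s * ‖1 - E (N : ℤ) x‖ ^ 2) := by positivity
      linarith
    have hE : ∀ d : ℤ, Continuous (E d) := continuous_E
    have hc1 : Continuous fun x : ℝ =>
        Real.log (δ ^ 2 - η + r * (‖1 - E 1 x‖ ^ 2 + s * ‖1 - E (N : ℤ) x‖ ^ 2)) := by
      refine Continuous.log ?_ fun x => (h5 x).ne'
      have h6 := hE 1
      have h7 := hE (N : ℤ)
      fun_prop
    have hc2 : Continuous fun x : ℝ => Real.log (‖1 - ∑ a ∈ K, (q a : ℂ) * E (k a) x‖ ^ 2) := by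
      refine Continuous.log ?_ fun x => ((h5 x).trans_le (h3 x)).ne'
      have h6 : Continuous fun x : ℝ => ∑ a ∈ K, (q a : ℂ) * E (k a) x :=
        continuous_finsetSum _ fun a _ => continuous_const.mul (hE (k a))
      fun_prop
    have h8 : ∫ x in (0:ℝ)..1,
        Real.log (δ ^ 2 - η + r * (‖1 - E 1 x‖ ^ 2 + s * ‖1 - E (N : ℤ) x‖ ^ 2)) ≤
        ∫ x in (0:ℝ)..1, Real.log (‖1 - ∑ a ∈ K, (q a : ℂ) * E (k a) x‖ ^ 2) :=
      intervalIntegral.integral_mono_on zero_le_one (hc1.intervalIntegrable _ _)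
        (hc2.intervalIntegrable _ _) fun x _ => Real.log_le_log (h5 x) (h3 x)
    have h9 := integral_log_one_sub_nonpos K k q (fun a _ => hq.nonneg a) (by linarith)
    linarith
  · have := hcon K' q' hq'
    linarith

end Pool.Agent.MP_d1728b_an.HLP
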