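import Pool.Agent.Lib.MP_d1728b_an.HLP.Quad
import Pool.Agent.Lib.MP_d1728b_an.HLP.Exist

/-!
# The logarithmic inequality and the strong Littlewood conjecture
-/

set_option autoImplicit false

open Finset Filter Topology MeasureTheory
open Pool.Agent.Littlewood
open Pool.Agent.MP_d1728b_an.HL (F)

namespace Pool.Agent.MP_d1728b_an.HLP

/-- `0 ≤ log (r + ε) + ∫ log w` for every `ε > 0` -/
theorem log_ineq_aux (A : Finset ℤ) {s r ε : ℝ} (hs : 0 < s) (hr : 0 < r) (hε : 0 < ε) (hA : 1 ≤ A.card)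
    (h : 0 ≤ Real.log r + ∫ x in (0:ℝ)..1, Real.log (1 + s * ‖F (Finset.Ico 0 (A.card : ℤ)) x‖ ^ 2)) :
    0 ≤ Real.log (r + ε) + ∫ x in (0:ℝ)..1, Real.log (1 + s * ‖F A x‖ ^ 2) := by
  have hw : Continuous fun x : ℝ => 1 + s * ‖F A x‖ ^ 2 :=
    continuous_const.add (continuous_const.mul ((HL.continuous_F A).norm.pow 2))
  have hw1 : ∀ x : ℝ, 1 ≤ 1 + s * ‖F A x‖ ^ 2 := fun x => by
    have : 0 ≤ s * ‖F A x‖ ^ 2 := by positivity
    linarith
  have hex : ∀ m : ℕ, ∃ L : Polynomial ℤ, 1 ≤ m → (L.eval 1).natAbs = m ∧ 1 ≤ L.coeff 0 ∧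
      en (fun x => 1 + s * ‖F A x‖ ^ 2) (zr L) ≤ lam (fun x => 1 + s * ‖F A x‖ ^ 2) m + ε := by
    intro m
    by_cases hm : 1 ≤ m
    · obtain ⟨L, h1, h2, h3⟩ := exists_near hw1 hε hm
      exact ⟨L, fun _ => ⟨h1, h2, h3⟩⟩
    · exact ⟨0, fun h => absurd h hm⟩
  choose L hL using hex
  set k : ℕ → ℤ := fun a => if a = 0 then 0 else (L a).eval 1 with hk
  have hkabs : ∀ a, (k a).natAbs = a := by
    intro a
    by_cases ha : a = 0
    · simp [hk, ha]
    · have := (hL a (Nat.one_le_iff_ne_zero.2 ha)).1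
      simp only [hk, if_neg ha]
      exact this
  have key : ∀ δ : ℝ, 0 < δ → δ < 1 → Real.log ((1 - δ) ^ 2) ≤
      Real.log (r + ε) + ∫ x in (0:ℝ)..1, Real.log (1 + s * ‖F A x‖ ^ 2) := by
    intro δ hδ hδ1
    obtain ⟨K, q, hq, hQ⟩ := exists_feas hA hs hr hkabs h hδ
    have hK : ∀ a ∈ K, 1 ≤ a := by
      intro a ha
      rcases Nat.eq_zero_or_pos a with h0 | h0
      · exact absurd (h0 ▸ ha) hq.zero
      · exact h0
    have hQ0 : 0 < ∑ a ∈ K, q a := by linarith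
    have h1 := log_le_of_feas hs hr.le hε hA hq hw hw1 (lam_one_add hs) L
      (fun a ha => by
        have : a ≠ 0 := Nat.one_le_iff_ne_zero.1 (hK a ha)
        simp only [hk, if_neg this])
      (fun a ha => (hL a (hK a ha)).2.2) (fun a ha => (hL a (hK a ha)).2.1) hQ0
    refine le_trans (Real.log_le_log (by have : 0 < 1 - δ := by linarith
                                         positivity) ?_) h1
    exact pow_le_pow_left₀ (by linarith) hQ.le 2
  have hlim : Tendsto (fun δ : ℝ => Real.log ((1 - δ) ^ 2)) (𝓝[>] 0) (𝓝 0) := by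
    have hc : ContinuousAt (fun δ : ℝ => Real.log ((1 - δ) ^ 2)) 0 := by
      refine ContinuousAt.log ?_ (by norm_num)
      fun_prop
    have := hc.tendsto
    simp only [sub_zero, one_pow, Real.log_one] at this
    exact this.mono_left nhdsWithin_le_nhds
  refine le_of_tendsto hlim ?_
  have : Set.Ioo (0:ℝ) 1 ∈ 𝓝[>] (0:ℝ) := Ioo_mem_nhdsGT one_pos
  filter_upwards [this] with δ hδ
  exact key δ hδ.1 hδ.2

/-- **the logarithmic inequality** -/
theorem log_ineq (A : Finset ℤ) {s : ℝ} (hs : 0 < s) :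
    ∫ x in (0:ℝ)..1, Real.log (1 + s * ‖F (Finset.Ico 0 (A.card : ℤ)) x‖ ^ 2) ≤
      ∫ x in (0:ℝ)..1, Real.log (1 + s * ‖F A x‖ ^ 2) := by
  rcases Nat.eq_zero_or_pos A.card with h0 | h0
  · have hA : A = ∅ := Finset.card_eq_zero.1 h0
    rw [hA]
    simp
  · set I : ℝ := ∫ x in (0:ℝ)..1, Real.log (1 + s * ‖F (Finset.Ico 0 (A.card : ℤ)) x‖ ^ 2) with hI
    have h1 : ∀ ε : ℝ, 0 < ε → 0 ≤ Real.log (Real.exp (-I) + ε) +
        ∫ x in (0:ℝ)..1, Real.log (1 + s * ‖F A x‖ ^ 2) := fun ε hε =>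
      log_ineq_aux A hs (Real.exp_pos _) hε h0 (by rw [Real.log_exp, ← hI]; simp)
    have hlim : Tendsto (fun ε : ℝ => Real.log (Real.exp (-I) + ε) +
        ∫ x in (0:ℝ)..1, Real.log (1 + s * ‖F A x‖ ^ 2)) (𝓝[>] 0)
        (𝓝 (-I + ∫ x in (0:ℝ)..1, Real.log (1 + s * ‖F A x‖ ^ 2))) := by
      have hc : ContinuousAt (fun ε : ℝ => Real.log (Real.exp (-I) + ε) +
          ∫ x in (0:ℝ)..1, Real.log (1 + s * ‖F A x‖ ^ 2)) 0 := by
        refine ContinuousAt.add (ContinuousAt.log (by fun_prop) ?_) continuousAt_const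
        rw [add_zero]
        exact (Real.exp_pos _).ne'
      have := hc.tendsto
      simp only [add_zero, Real.log_exp] at this
      exact this.mono_left nhdsWithin_le_nhds
    have h2 := ge_of_tendsto hlim (by
      filter_upwards [self_mem_nhdsWithin] with ε hε
      exact h1 ε hε)
    linarith

theorem strong_littlewood (A : Finset ℤ) (a d : ℤ) (hd : d ≠ 0) :
    (∫ θ in (0:ℝ)..1,
          ‖∑ k ∈ Finset.range A.card,
              Complex.exp (2 * (Real.pi : ℂ) * Complex.I * (((a + d * (k : ℤ) : ℤ)) : ℂ) * (θ : ℂ))‖)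
        ≤ ∫ θ in (0:ℝ)..1,
          ‖∑ x ∈ A, Complex.exp (2 * (Real.pi : ℂ) * Complex.I * (x : ℂ) * (θ : ℂ))‖ :=
  HL.main_of_log A (fun _ hs => log_ineq A hs) a d hd

end Pool.Agent.MP_d1728b_an.HLP
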