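import Pool.Agent.Lib.MP_d1728b_an.HLP.Defs

/-!
# The polarisation identity
-/

set_option autoImplicit false

open Finset
open Pool.Agent.Littlewood

namespace Pool.Agent.MP_d1728b_an.HLP

/-- `‖∑ t_i v_i‖² = (∑ t_i) ∑ t_i ‖v_i‖² - (1/2) ∑ ∑ t_i t_j ‖v_i - v_j‖²` -/
theorem polar {ι : Type*} {V : Type*} [NormedAddCommGroup V] [InnerProductSpace ℝ V]
    (S : Finset ι) (t : ι → ℝ) (v : ι → V) :
    ‖∑ i ∈ S, t i • v i‖ ^ 2 = (∑ i ∈ S, t i) * (∑ i ∈ S, t i * ‖v i‖ ^ 2) -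
      (∑ i ∈ S, ∑ j ∈ S, t i * t j * ‖v i - v j‖ ^ 2) / 2 := by
  have h1 : ‖∑ i ∈ S, t i • v i‖ ^ 2 = ∑ i ∈ S, ∑ j ∈ S, t i * t j * inner ℝ (v i) (v j) := by
    rw [← real_inner_self_eq_norm_sq, sum_inner]
    refine Finset.sum_congr rfl fun i _ => ?_
    rw [inner_sum]
    refine Finset.sum_congr rfl fun j _ => ?_
    rw [real_inner_smul_left, real_inner_smul_right]
    ring
  have h2 : (∑ i ∈ S, t i) * (∑ i ∈ S, t i * ‖v i‖ ^ 2) =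
      ∑ i ∈ S, ∑ j ∈ S, t i * t j * ‖v j‖ ^ 2 := by
    rw [Finset.sum_mul]
    refine Finset.sum_congr rfl fun i _ => ?_
    rw [Finset.mul_sum]
    refine Finset.sum_congr rfl fun j _ => ?_
    ring
  have h3 : (∑ i ∈ S, t i) * (∑ i ∈ S, t i * ‖v i‖ ^ 2) =
      ∑ i ∈ S, ∑ j ∈ S, t i * t j * ‖v i‖ ^ 2 := by
    rw [h2, Finset.sum_comm]
    refine Finset.sum_congr rfl fun i _ => ?_
    refine Finset.sum_congr rfl fun j _ => ?_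
    ring
  have h4 : (∑ i ∈ S, ∑ j ∈ S, t i * t j * ‖v i - v j‖ ^ 2) =
      ∑ i ∈ S, ∑ j ∈ S, t i * t j * ‖v i‖ ^ 2 + ∑ i ∈ S, ∑ j ∈ S, t i * t j * ‖v j‖ ^ 2
      - 2 * ∑ i ∈ S, ∑ j ∈ S, t i * t j * inner ℝ (v i) (v j) := by
    rw [← Finset.sum_add_distrib, Finset.mul_sum, ← Finset.sum_sub_distrib]
    refine Finset.sum_congr rfl fun i _ => ?_
    rw [← Finset.sum_add_distrib, Finset.mul_sum, ← Finset.sum_sub_distrib]
    refine Finset.sum_congr rfl fun j _ => ?_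
    rw [norm_sub_sq_real]
    ring
  rw [h4, ← h3, ← h2, h1]
  ring

lemma nV_neg (m : ℤ) (x : ℝ) : ‖1 - E (-m) x‖ = ‖1 - E m x‖ := by
  rw [← conj_E, ← RCLike.norm_conj (1 - E m x)]
  simp

lemma nV_natAbs (m : ℤ) (x : ℝ) : ‖1 - E (m.natAbs : ℤ) x‖ = ‖1 - E m x‖ := by
  rcases Int.natAbs_eq m with h | h
  · rw [← h]
  · conv_rhs => rw [h]
    rw [nV_neg]

lemma nV_sub (a b : ℤ) (x : ℝ) : ‖E a x - E b x‖ = ‖1 - E (a - b) x‖ := by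
  have h : E a x - E b x = -(E b x * (1 - E (a - b) x)) := by
    have : E a x = E b x * E (a - b) x := by rw [← E_add]; congr 1; ring
    rw [this]; ring
  rw [h, norm_neg, norm_mul, norm_E, one_mul]

lemma norm_one_sub_sq_unim (z : ℂ) (hz : ‖z‖ = 1) : ‖1 - z‖ ^ 2 = 2 - 2 * z.re := by
  have h := norm_sub_sq_real (1 : ℂ) z
  rw [h, hz, norm_one, Complex.inner]
  simp
  ring

/-- the polarisation identity for `‖1 - P‖²` -/
lemma one_sub_polar {ι : Type*} (S : Finset ι) (t : ι → ℝ) (z : ι → ℂ) (hz : ∀ i ∈ S, ‖z i‖ = 1) :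
    ‖1 - ∑ i ∈ S, (t i : ℂ) * z i‖ ^ 2 = (1 - ∑ i ∈ S, t i) ^ 2 + ∑ i ∈ S, t i * ‖1 - z i‖ ^ 2 -
      (∑ i ∈ S, ∑ j ∈ S, t i * t j * ‖z i - z j‖ ^ 2) / 2 := by
  have h0 : ∑ i ∈ S, (t i : ℂ) * z i = ∑ i ∈ S, t i • z i :=
    Finset.sum_congr rfl fun i _ => by rw [Complex.real_smul]
  have h1 := polar S t z
  have h2 : ∑ i ∈ S, t i * ‖z i‖ ^ 2 = ∑ i ∈ S, t i :=
    Finset.sum_congr rfl fun i hi => by rw [hz i hi]; ring
  rw [h2] at h1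
  have h3 : ∑ i ∈ S, t i * ‖1 - z i‖ ^ 2 = 2 * ∑ i ∈ S, t i - 2 * ∑ i ∈ S, t i * (z i).re := by
    rw [Finset.mul_sum, Finset.mul_sum, ← Finset.sum_sub_distrib]
    refine Finset.sum_congr rfl fun i hi => ?_
    rw [norm_one_sub_sq_unim _ (hz i hi)]
    ring
  have h4 : (∑ i ∈ S, t i • z i).re = ∑ i ∈ S, t i * (z i).re := by
    rw [Complex.re_sum]
    refine Finset.sum_congr rfl fun i _ => ?_
    rw [Complex.real_smul, Complex.re_ofReal_mul]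
  have h5 := norm_sub_sq_real (1 : ℂ) (∑ i ∈ S, t i • z i)
  have h6 : inner ℝ (1 : ℂ) (∑ i ∈ S, t i • z i) = ∑ i ∈ S, t i * (z i).re := by
    rw [← h4, Complex.inner]
    simp
  rw [h0, h5, norm_one, h6, h1, h3]
  ring

end Pool.Agent.MP_d1728b_an.HLP
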