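import Pool.Agent.Lib.MP_d1728b_an.HLP.Final
import Pool.Agent.Lib.MP_d1728b_an.HLP.Leb

/-!
# The asymptotic form of the strong Littlewood conjecture
-/

set_option autoImplicit false

open Finset Filter Topology MeasureTheory
open Pool.Agent.Littlewood

namespace Pool.Agent.MP_d1728b_an.HLP

theorem asymptotic : ∀ ε : ℝ, 0 < ε → ∃ N : ℕ, ∀ A : Finset ℤ, N ≤ A.card →
      (4 / Real.pi ^ 2 - ε) * Real.log (A.card : ℝ) ≤
        ∫ x in (0:ℝ)..1,
          ‖∑ a ∈ A, Complex.exp (2 * (Real.pi : ℂ) * Complex.I * (a : ℂ) * (x : ℂ))‖ := by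
  intro ε hε
  obtain ⟨N₀, h⟩ := lebesgue_eps hε
  refine ⟨N₀, fun A hA => ?_⟩
  refine (h _ hA).trans ?_
  refine le_trans (le_of_eq ?_) (strong_littlewood A 0 1 one_ne_zero)
  refine intervalIntegral.integral_congr fun x _ => ?_
  simp only [DN]
  congr 1
  refine Finset.sum_congr rfl fun k _ => ?_
  unfold E
  congr 1
  push_cast
  ring

end Pool.Agent.MP_d1728b_an.HLP
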