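import Pool.Agent.Lib.MP_d1728b_an.HLP.Energy
import Pool.Agent.Lib.MP_d1728b_an.HL.Weak

/-!
# Part B: a feasible law gives a lower bound of `∫ log w`
-/

set_option autoImplicit false

open Finset Filter Topology MeasureTheory
open Pool.Agent.Littlewood
open Pool.Agent.MP_d1728b_an.HL (F)

namespace Pool.Agent.MP_d1728b_an.HLP

private lemma polar_real (K : Finset ℕ) (q x : ℕ → ℝ) :
    (∑ a ∈ K, q a * x a) ^ 2 = (∑ a ∈ K, q a) * (∑ a ∈ K, q a * x a ^ 2) -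
      (∑ a ∈ K, ∑ b ∈ K, q a * q b * (x a - x b) ^ 2) / 2 := by
  have h1 : ∑ a ∈ K, ∑ b ∈ K, q a * q b * (x a - x b) ^ 2 =
      ∑ a ∈ K, ∑ b ∈ K, (q a * x a ^ 2) * q b + ∑ a ∈ K, ∑ b ∈ K, q a * (q b * x b ^ 2) -
        2 * ∑ a ∈ K, ∑ b ∈ K, (q a * x a) * (q b * x b) := by
    rw [Finset.mul_sum, ← Finset.sum_add_distrib, ← Finset.sum_sub_distrib]
    refine Finset.sum_congr rfl fun a _ => ?_
    rw [Finset.mul_sum, ← Finset.sum_add_distrib, ← Finset.sum_sub_distrib]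
    refine Finset.sum_congr rfl fun b _ => ?_
    ring
  rw [h1, ← Finset.sum_mul_sum, ← Finset.sum_mul_sum, ← Finset.sum_mul_sum]
  ring

private lemma polar_complex (K : Finset ℕ) (q : ℕ → ℝ) (u : ℕ → ℂ) :
    ‖∑ a ∈ K, (q a : ℂ) * u a‖ ^ 2 = (∑ a ∈ K, q a) * (∑ a ∈ K, q a * ‖u a‖ ^ 2) -
      (∑ a ∈ K, ∑ b ∈ K, q a * q b * ‖u a - u b‖ ^ 2) / 2 := by
  have hre : (∑ a ∈ K, (q a : ℂ) * u a).re = ∑ a ∈ K, q a * (u a).re := by
    rw [Complex.re_sum]
    simp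
  have him : (∑ a ∈ K, (q a : ℂ) * u a).im = ∑ a ∈ K, q a * (u a).im := by
    rw [Complex.im_sum]
    simp
  have hn : ∀ z : ℂ, ‖z‖ ^ 2 = z.re ^ 2 + z.im ^ 2 := by
    intro z
    rw [Complex.sq_norm, Complex.normSq_apply]
    ring
  simp_rw [hn]
  rw [hre, him, polar_real, polar_real]
  simp_rw [Complex.sub_re, Complex.sub_im, mul_add, Finset.sum_add_distrib]
  ring

private lemma continuous_ev (f : Polynomial ℝ) : Continuous (ev f) := by
  unfold ev
  have h := continuous_E 1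
  exact (Polynomial.continuous_aeval f).comp h

/-- `‖∑ q_a v_a‖² = Q ∑ q_a ‖v_a‖² - (1/2) ∑ ∑ q_a q_b ‖v_a - v_b‖²`, pointwise and then integrated -/
theorem en_sum {w : ℝ → ℝ} (hw : Continuous w) (hw1 : ∀ x, 1 ≤ w x) (K : Finset ℕ) (q : ℕ → ℝ)
    (L : ℕ → Polynomial ℤ) :
    en w (∑ a ∈ K, Polynomial.C (q a) * zr (L a)) =
      (∑ a ∈ K, q a) * ∑ a ∈ K, q a * en w (zr (L a)) -
        (∑ a ∈ K, ∑ b ∈ K, q a * q b * en w (zr (L a - L b))) / 2 := by
  have hw0 : ∀ x, w x ≠ 0 := fun x => by have := hw1 x; positivity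
  have hc : ∀ f : Polynomial ℝ, Continuous fun x => ‖ev f x‖ ^ 2 / w x := fun f =>
    ((continuous_ev f).norm.pow 2).div hw hw0
  have hi : ∀ f : Polynomial ℝ, IntervalIntegrable (fun x => ‖ev f x‖ ^ 2 / w x) volume 0 1 := fun f =>
    (hc f).intervalIntegrable _ _
  have hev : ∀ x, ev (∑ a ∈ K, Polynomial.C (q a) * zr (L a)) x = ∑ a ∈ K, (q a : ℂ) * ev (zr (L a)) x := by
    intro x
    simp only [ev, map_sum, map_mul, Polynomial.aeval_C]
    rfl
  have hsub : ∀ a b x, ev (zr (L a)) x - ev (zr (L b)) x = ev (zr (L a - L b)) x := by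
    intro a b x
    simp only [ev, zr, Polynomial.map_sub, map_sub]
  have hpt : ∀ x, ‖ev (∑ a ∈ K, Polynomial.C (q a) * zr (L a)) x‖ ^ 2 / w x =
      (∑ a ∈ K, q a) * (∑ a ∈ K, q a * (‖ev (zr (L a)) x‖ ^ 2 / w x)) -
      (1 / 2) * (∑ a ∈ K, ∑ b ∈ K, q a * q b * (‖ev (zr (L a - L b)) x‖ ^ 2 / w x)) := by
    intro x
    rw [hev, polar_complex]
    simp_rw [hsub, ← mul_div_assoc, ← Finset.sum_div]
    ring
  unfold en
  simp_rw [hpt]
  rw [intervalIntegral.integral_sub, intervalIntegral.integral_const_mul,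
    intervalIntegral.integral_const_mul, intervalIntegral.integral_finsetSum,
    intervalIntegral.integral_finsetSum]
  · have h2 : ∀ a ∈ K, ∫ x in (0:ℝ)..1, ∑ b ∈ K, q a * q b * (‖ev (zr (L a - L b)) x‖ ^ 2 / w x) =
        ∑ b ∈ K, q a * q b * ∫ x in (0:ℝ)..1, ‖ev (zr (L a - L b)) x‖ ^ 2 / w x := by
      intro a _
      rw [intervalIntegral.integral_finsetSum]
      · refine Finset.sum_congr rfl fun b _ => ?_
        rw [intervalIntegral.integral_const_mul]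
      · exact fun b _ => (hi _).const_mul _
    rw [Finset.sum_congr rfl h2]
    simp_rw [intervalIntegral.integral_const_mul]
    ring
  · intro a _
    exact Continuous.intervalIntegrable
      (continuous_finsetSum _ fun b _ => continuous_const.mul (hc _)) _ _
  · exact fun a _ => (hi _).const_mul _
  · exact Continuous.intervalIntegrable
      (continuous_const.mul (continuous_finsetSum _ fun a _ => continuous_const.mul (hc _))) _ _
  · exact Continuous.intervalIntegrable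
      (continuous_const.mul (continuous_finsetSum _ fun a _ =>
        continuous_finsetSum _ fun b _ => continuous_const.mul (hc _))) _ _

/-- the energy of the mixture of the near minimizers -/
theorem en_le {N : ℕ} {s r ε : ℝ} {k : ℕ → ℤ} {K : Finset ℕ} {q : ℕ → ℝ} (hs : 0 < s) (hr : 0 ≤ r) (hε : 0 ≤ ε)
    (hN : 1 ≤ N) (hq : Feas N s r k K q) {w : ℝ → ℝ} (hw : Continuous w) (hw1 : ∀ x, 1 ≤ w x)
    (h1 : lam w 1 + s * lam w (N : ℤ) ≤ 1) (L : ℕ → Polynomial ℤ)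
    (hL : ∀ a ∈ K, (L a).eval 1 = k a) (hE : ∀ a ∈ K, en w (zr (L a)) ≤ lam w (a : ℤ) + ε) :
    en w (∑ a ∈ K, Polynomial.C (q a) * zr (L a)) ≤ r + ε := by
  classical
  have hQ0 : 0 ≤ ∑ a ∈ K, q a := Finset.sum_nonneg fun a _ => hq.nonneg a
  have hlam : ∀ m, 0 ≤ lam w m := lam_nonneg hw1
  -- first term
  have hA : (∑ a ∈ K, q a) * ∑ a ∈ K, q a * en w (zr (L a)) ≤ ∑ a ∈ K, q a * lam w (a : ℤ) + ε := by
    have h2 : ∑ a ∈ K, q a * en w (zr (L a)) ≤ ∑ a ∈ K, q a * (lam w (a : ℤ) + ε) :=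
      Finset.sum_le_sum fun a ha => mul_le_mul_of_nonneg_left (hE a ha) (hq.nonneg a)
    have h3 : 0 ≤ ∑ a ∈ K, q a * (lam w (a : ℤ) + ε) :=
      Finset.sum_nonneg fun a _ => mul_nonneg (hq.nonneg a) (add_nonneg (hlam _) hε)
    have h4 : ∑ a ∈ K, q a * (lam w (a : ℤ) + ε) = ∑ a ∈ K, q a * lam w (a : ℤ) + (∑ a ∈ K, q a) * ε := by
      rw [Finset.sum_mul, ← Finset.sum_add_distrib]
      exact Finset.sum_congr rfl fun a _ => by ring
    calc (∑ a ∈ K, q a) * ∑ a ∈ K, q a * en w (zr (L a))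
        ≤ (∑ a ∈ K, q a) * ∑ a ∈ K, q a * (lam w (a : ℤ) + ε) := mul_le_mul_of_nonneg_left h2 hQ0
      _ ≤ 1 * ∑ a ∈ K, q a * (lam w (a : ℤ) + ε) := mul_le_mul_of_nonneg_right hq.mass h3
      _ = ∑ a ∈ K, q a * lam w (a : ℤ) + (∑ a ∈ K, q a) * ε := by rw [one_mul, h4]
      _ ≤ ∑ a ∈ K, q a * lam w (a : ℤ) + ε := by nlinarith [hq.mass]
  -- second term
  have hB : ∑ a ∈ K, ∑ b ∈ K, q a * q b * lam w (((k a - k b).natAbs : ℕ) : ℤ) ≤
      ∑ a ∈ K, ∑ b ∈ K, q a * q b * en w (zr (L a - L b)) := by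
    refine Finset.sum_le_sum fun a ha => Finset.sum_le_sum fun b hb => ?_
    refine mul_le_mul_of_nonneg_left ?_ (mul_nonneg (hq.nonneg a) (hq.nonneg b))
    rw [lam_natAbs hw1]
    have h5 := lam_le hw1 (L a - L b)
    rw [Polynomial.eval_sub, hL a ha, hL b hb] at h5
    exact h5
  -- regroup the double sum
  set M : Finset ℕ := K ∪ {1, N} ∪ (K ×ˢ K).image (fun p => (k p.1 - k p.2).natAbs) with hM
  have hC : ∑ a ∈ K, ∑ b ∈ K, q a * q b * lam w (((k a - k b).natAbs : ℕ) : ℤ) =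
      ∑ m ∈ M, cc k K q m * lam w (m : ℤ) := by
    unfold cc
    simp_rw [Finset.sum_mul]
    rw [Finset.sum_comm]
    conv_rhs => rw [Finset.sum_comm]
    rw [Finset.sum_comm]
    refine Finset.sum_congr rfl fun a ha => ?_
    rw [Finset.sum_comm]
    refine Finset.sum_congr rfl fun b hb => ?_
    simp_rw [ite_mul, zero_mul]
    rw [Finset.sum_ite_eq, if_pos]
    rw [hM]
    refine Finset.mem_union_right _ (Finset.mem_image.2 ⟨(a, b), Finset.mem_product.2 ⟨ha, hb⟩, rfl⟩)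
  have hKM : K ⊆ M := fun a ha => Finset.mem_union_left _ (Finset.mem_union_left _ ha)
  have hD : ∑ a ∈ K, q a * lam w (a : ℤ) = ∑ m ∈ M, q m * lam w (m : ℤ) := by
    refine Finset.sum_subset hKM fun m _ hm => ?_
    rw [hq.supp m hm, zero_mul]
  have hF : ∑ m ∈ M, q m * lam w (m : ℤ) ≤
      ∑ m ∈ M, (rhs N s r m * lam w (m : ℤ) + cc k K q m * lam w (m : ℤ) / 2) := by
    refine Finset.sum_le_sum fun m _ => ?_
    rcases Nat.eq_zero_or_pos m with rfl | hm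
    · rw [Nat.cast_zero, lam_zero hw1]; simp
    · have := mul_le_mul_of_nonneg_right (hq.ineq m hm) (hlam (m : ℤ))
      linarith
  have hG : ∑ m ∈ M, rhs N s r m * lam w (m : ℤ) = r * lam w 1 + r * s * lam w (N : ℤ) := by
    unfold rhs
    simp_rw [add_mul, ite_mul, zero_mul]
    rw [Finset.sum_add_distrib, Finset.sum_ite_eq', Finset.sum_ite_eq', if_pos, if_pos]
    · simp
    · rw [hM]; simp
    · rw [hM]; simp
  have hH : r * lam w 1 + r * s * lam w (N : ℤ) ≤ r := by nlinarith [hlam 1, hlam (N : ℤ)]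
  rw [en_sum hw hw1]
  rw [Finset.sum_add_distrib, ← Finset.sum_div, hG] at hF
  linarith

/-- scaled form of the double Jensen inequality -/
private lemma jensen_scaled {w : ℝ → ℝ} (hw : Continuous w) (hw1 : ∀ x, 1 ≤ w x) (g : Polynomial ℝ)
    (c : ℝ) (hI : c ^ 2 * en w g ≤ 1) :
    Real.log (c ^ 2 * (g.eval 0) ^ 2) ≤ ∫ x in (0:ℝ)..1, Real.log (w x) := by
  have hev : ∀ z : ℂ, (Polynomial.C (c : ℂ) * g.map (algebraMap ℝ ℂ)).eval z =
      (c : ℂ) * Polynomial.aeval z g := by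
    intro z
    rw [Polynomial.eval_mul, Polynomial.eval_C, Polynomial.eval_map_algebraMap]
  have key := HL.jensen_weak ({()} : Finset Unit)
    (fun _ => Polynomial.C (c : ℂ) * g.map (algebraMap ℝ ℂ)) w hw hw1 le_rfl (by
      simp only [Finset.sum_singleton, hev, norm_mul, mul_pow, Complex.norm_real, Real.norm_eq_abs,
        sq_abs, mul_div_assoc]
      rw [intervalIntegral.integral_const_mul, add_zero]
      exact hI)
  simp only [Finset.sum_singleton, hev, norm_mul, mul_pow, Complex.norm_real, Real.norm_eq_abs,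
    sq_abs, add_zero] at key
  have h0 : ‖Polynomial.aeval (0:ℂ) g‖ ^ 2 = (g.eval 0) ^ 2 := by
    have h1 : Polynomial.aeval (0:ℂ) g = ((g.eval 0 : ℝ) : ℂ) := by
      rw [Polynomial.aeval_def, Polynomial.eval₂_at_zero, ← Polynomial.coeff_zero_eq_eval_zero]
      rfl
    rw [h1, Complex.norm_real, Real.norm_eq_abs, sq_abs]
  rw [h0] at key
  exact key

private lemma en_pos {w : ℝ → ℝ} (hw : Continuous w) (hw1 : ∀ x, 1 ≤ w x) (g : Polynomial ℝ)
    (hg : g.eval 0 ≠ 0) : 0 < en w g := by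
  refine lt_of_le_of_ne (en_nonneg hw1 g) fun h => ?_
  set B := ∫ x in (0:ℝ)..1, Real.log (w x) with hB
  have hg2 : 0 < (g.eval 0) ^ 2 := by positivity
  have h1 := jensen_scaled hw hw1 g (Real.sqrt (Real.exp (B + 1) / (g.eval 0) ^ 2)) (by
    rw [← h, mul_zero]; exact zero_le_one)
  rw [Real.sq_sqrt (by positivity), div_mul_cancel₀ _ hg2.ne', Real.log_exp] at h1
  linarith

/-- Jensen twice: `log g(0)² ≤ ∫ log ‖g‖² ≤ ∫ log w + log ∫ ‖g‖² / w` -/
theorem jensen_en {w : ℝ → ℝ} (hw : Continuous w) (hw1 : ∀ x, 1 ≤ w x) (g : Polynomial ℝ) (hg : g.eval 0 ≠ 0) :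
    Real.log ((g.eval 0) ^ 2) ≤ Real.log (en w g) + ∫ x in (0:ℝ)..1, Real.log (w x) := by
  have hI := en_pos hw hw1 g hg
  have hg2 : 0 < (g.eval 0) ^ 2 := by positivity
  have h1 := jensen_scaled hw hw1 g (Real.sqrt (en w g)⁻¹) (by
    rw [Real.sq_sqrt (by positivity), inv_mul_cancel₀ hI.ne'])
  rw [Real.sq_sqrt (by positivity), Real.log_mul (inv_pos.2 hI).ne' hg2.ne', Real.log_inv] at h1
  linarith

theorem log_le_of_feas {N : ℕ} {s r ε : ℝ} {k : ℕ → ℤ} {K : Finset ℕ} {q : ℕ → ℝ} (hs : 0 < s) (hr : 0 ≤ r)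
    (hε : 0 < ε) (hN : 1 ≤ N) (hq : Feas N s r k K q) {w : ℝ → ℝ} (hw : Continuous w) (hw1 : ∀ x, 1 ≤ w x)
    (h1 : lam w 1 + s * lam w (N : ℤ) ≤ 1) (L : ℕ → Polynomial ℤ)
    (hL : ∀ a ∈ K, (L a).eval 1 = k a) (hE : ∀ a ∈ K, en w (zr (L a)) ≤ lam w (a : ℤ) + ε)
    (hc : ∀ a ∈ K, 1 ≤ (L a).coeff 0) (hQ : 0 < ∑ a ∈ K, q a) :
    Real.log ((∑ a ∈ K, q a) ^ 2) ≤ Real.log (r + ε) + ∫ x in (0:ℝ)..1, Real.log (w x) := by
  set g : Polynomial ℝ := ∑ a ∈ K, Polynomial.C (q a) * zr (L a) with hg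
  set Q : ℝ := ∑ a ∈ K, q a with hQd
  have hg0 : Q ≤ g.eval 0 := by
    rw [hg, Polynomial.eval_finsetSum, hQd]
    refine Finset.sum_le_sum fun a ha => ?_
    rw [Polynomial.eval_mul, Polynomial.eval_C]
    have h2 : (zr (L a)).eval 0 = ((L a).coeff 0 : ℝ) := by
      rw [← Polynomial.coeff_zero_eq_eval_zero, zr, Polynomial.coeff_map]
      rfl
    rw [h2]
    have h3 : (1:ℝ) ≤ ((L a).coeff 0 : ℝ) := by exact_mod_cast hc a ha
    nlinarith [hq.nonneg a]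
  have hg1 : g.eval 0 ≠ 0 := by linarith [hg0] |> fun h : 0 < g.eval 0 => h.ne'
  have h3 : Real.log (Q ^ 2) ≤ Real.log ((g.eval 0) ^ 2) :=
    Real.log_le_log (by positivity) (pow_le_pow_left₀ hQ.le hg0 2)
  have h4 := jensen_en hw hw1 g hg1
  have h5 : Real.log (en w g) ≤ Real.log (r + ε) :=
    Real.log_le_log (en_pos hw hw1 g hg1) (en_le hs hr hε.le hN hq hw hw1 h1 L hL hE)
  linarith

end Pool.Agent.MP_d1728b_an.HLP
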