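import Pool.Agent.Lib.MP_d1728b_an.HLP.Polar

/-!
# Part C1: the step `q ↦ T q` and the identity for `‖1 - P‖²`
-/

set_option autoImplicit false

open Finset Filter Topology MeasureTheory
open Pool.Agent.Littlewood
open Pool.Agent.MP_d1728b_an.HL (F)

namespace Pool.Agent.MP_d1728b_an.HLP

/-- `T q`, as a function -/
noncomputable def tq (N : ℕ) (s r : ℝ) (k : ℕ → ℤ) (K : Finset ℕ) (q : ℕ → ℝ) (m : ℕ) : ℝ :=
  if m = 0 then 0 else rhs N s r m + cc k K q m / 2

/-- the support of `T q` is contained in `Icc 1 (2 max K + N + 1)`, say -/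
theorem exists_supp (N : ℕ) (s r : ℝ) {k : ℕ → ℤ} (hk : ∀ a, (k a).natAbs = a) (K : Finset ℕ) (q : ℕ → ℝ)
    (h0 : 0 ∉ K) :
    ∃ K' : Finset ℕ, K ⊆ K' ∧ 0 ∉ K' ∧ 1 ∈ K' ∧ (N ≠ 0 → N ∈ K') ∧ ∀ m, m ∉ K' → tq N s r k K q m = 0 := by
  have hle : ∀ a ∈ K, a ≤ K.sup id := fun a ha => Finset.le_sup (f := id) ha
  refine ⟨Finset.Icc 1 (2 * K.sup id + N + 1), ?_, ?_, ?_, ?_, ?_⟩
  · intro a ha
    have h1 := hle a ha
    have h2 : a ≠ 0 := fun h => h0 (h ▸ ha)
    rw [Finset.mem_Icc]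
    omega
  · simp
  · rw [Finset.mem_Icc]
    omega
  · intro hN
    rw [Finset.mem_Icc]
    omega
  · intro m hm
    unfold tq
    rcases Nat.eq_zero_or_pos m with hm0 | hm0
    · rw [if_pos hm0]
    · rw [if_neg hm0.ne']
      rw [Finset.mem_Icc] at hm
      have hm1 : 2 * K.sup id + N + 1 < m := by omega
      have h1 : rhs N s r m = 0 := by
        unfold rhs
        rw [if_neg (by omega), if_neg (by omega), add_zero]
      have h2 : cc k K q m = 0 := by
        unfold cc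
        refine Finset.sum_eq_zero fun a ha => Finset.sum_eq_zero fun b hb => ?_
        rw [if_neg]
        have h3 := hle a ha
        have h4 := hle b hb
        have h5 := hk a
        have h6 := hk b
        omega
      rw [h1, h2]
      simp

/-- enlarging `K` does not change `cc` -/
theorem cc_mono_K {k : ℕ → ℤ} {K K' : Finset ℕ} (h : K ⊆ K') (q : ℕ → ℝ) (hq : ∀ a, a ∉ K → q a = 0) (m : ℕ) :
    cc k K' q m = cc k K q m := by
  unfold cc
  symm
  rw [Finset.sum_subset h]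
  · refine Finset.sum_congr rfl fun a _ => ?_
    refine Finset.sum_subset h fun b _ hb => ?_
    rw [hq b hb]
    simp
  · intro a _ ha
    refine Finset.sum_eq_zero fun b _ => ?_
    rw [hq a ha]
    simp

theorem cc_mono {k : ℕ → ℤ} {K : Finset ℕ} {q q' : ℕ → ℝ} (h0 : ∀ a, 0 ≤ q a) (h : ∀ a, q a ≤ q' a) (m : ℕ) :
    cc k K q m ≤ cc k K q' m := by
  unfold cc
  refine Finset.sum_le_sum fun a _ => Finset.sum_le_sum fun b _ => ?_
  split_ifs
  · exact mul_le_mul (h a) (h b) (h0 b) ((h0 a).trans (h a))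
  · exact le_refl 0

theorem cc_nonneg {k : ℕ → ℤ} {K : Finset ℕ} {q : ℕ → ℝ} (h0 : ∀ a, 0 ≤ q a) (m : ℕ) : 0 ≤ cc k K q m := by
  unfold cc
  refine Finset.sum_nonneg fun a _ => Finset.sum_nonneg fun b _ => ?_
  split_ifs
  · exact mul_nonneg (h0 a) (h0 b)
  · exact le_refl 0

theorem rhs_nonneg {N : ℕ} {s r : ℝ} (hs : 0 ≤ s) (hr : 0 ≤ r) (m : ℕ) : 0 ≤ rhs N s r m := by
  unfold rhs
  split_ifs <;> positivity

/-- `T q ≥ q`, and `T q` is feasible if its mass is at most `1`; otherwise there is a feasible law of mass `1`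
on the segment between `q` and `T q`. -/
theorem step {N : ℕ} {s r : ℝ} {k : ℕ → ℤ} {K : Finset ℕ} {q : ℕ → ℝ} (hs : 0 < s) (hr : 0 ≤ r)
    (hk : ∀ a, (k a).natAbs = a) (hq : Feas N s r k K q) {K' : Finset ℕ} (hKK : K ⊆ K') (h0 : 0 ∉ K')
    (hsupp : ∀ m, m ∉ K' → tq N s r k K q m = 0) :
    (∀ m, q m ≤ tq N s r k K q m) ∧
      ((∑ a ∈ K', tq N s r k K q a ≤ 1 ∧ Feas N s r k K' (tq N s r k K q)) ∨
        ∃ q' : ℕ → ℝ, Feas N s r k K' q' ∧ ∑ a ∈ K', q' a = 1) := by
  set T := tq N s r k K q with hT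
  have hT0 : T 0 = 0 := by rw [hT]; simp [tq]
  have hTm : ∀ m, m ≠ 0 → T m = rhs N s r m + cc k K q m / 2 := fun m hm => by
    rw [hT]; simp [tq, hm]
  have hqT : ∀ m, q m ≤ T m := by
    intro m
    rcases Nat.eq_zero_or_pos m with hm | hm
    · rw [hm, hT0, hq.supp 0 hq.zero]
    · rw [hTm m hm.ne']
      exact hq.ineq m hm
  have hTnn : ∀ m, 0 ≤ T m := fun m => (hq.nonneg m).trans (hqT m)
  have hccK : ∀ m, cc k K q m = cc k K' q m := fun m => (cc_mono_K hKK q hq.supp m).symm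
  have hmassK : ∑ a ∈ K, q a = ∑ a ∈ K', q a := Finset.sum_subset hKK fun a _ ha => hq.supp a ha
  refine ⟨hqT, ?_⟩
  by_cases h1 : ∑ a ∈ K', T a ≤ 1
  · left
    refine ⟨h1, h0, hTnn, hsupp, h1, fun m hm => ?_⟩
    rw [hTm m (by omega), hccK m]
    have := cc_mono (k := k) (K := K') hq.nonneg hqT m
    linarith
  · right
    push Not at h1
    set a := ∑ a ∈ K', q a with ha
    set b := ∑ a ∈ K', T a with hb
    have ha1 : a ≤ 1 := by rw [← hmassK]; exact hq.mass
    have hba : 0 < b - a := by linarith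
    set t := (1 - a) / (b - a) with ht
    have ht0 : 0 ≤ t := div_nonneg (by linarith) hba.le
    have ht1 : t ≤ 1 := (div_le_one hba).2 (by linarith)
    have hmass : ∑ m ∈ K', (q m + t * (T m - q m)) = 1 := by
      rw [Finset.sum_add_distrib, ← Finset.mul_sum, Finset.sum_sub_distrib, ← ha, ← hb, ht]
      field_simp
      ring
    have hle : ∀ m, q m ≤ q m + t * (T m - q m) := fun m => by
      have := mul_nonneg ht0 (sub_nonneg.2 (hqT m))
      linarith
    refine ⟨fun m => q m + t * (T m - q m), ⟨h0, fun m => (hq.nonneg m).trans (hle m), ?_, hmass.le, ?_⟩, hmass⟩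
    · intro m hm
      have h2 : q m = 0 := hq.supp m fun h => hm (hKK h)
      have h3 : T m = 0 := hsupp m hm
      simp only [h2, h3]
      simp
    · intro m hm
      have h2 := cc_mono (k := k) (K := K') hq.nonneg hle m
      have h3 := hTm m (by omega)
      rw [hccK m] at h3
      have h4 : q m + t * (T m - q m) ≤ T m := by
        nlinarith [mul_nonneg (sub_nonneg.2 ht1) (sub_nonneg.2 (hqT m))]
      linarith

/-- `‖1 - P‖² = (1 - Q)² + r (‖1 - z‖² + s ‖1 - z^N‖²) - ∑ (T q - q)_m ‖1 - z^m‖²` -/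
theorem one_sub_sq {N : ℕ} {s r : ℝ} {k : ℕ → ℤ} {K : Finset ℕ} {q : ℕ → ℝ} (hN : 1 ≤ N) (hs : 0 < s) (hr : 0 ≤ r)
    (hk : ∀ a, (k a).natAbs = a) (hq : Feas N s r k K q) {K' : Finset ℕ} (hKK : K ⊆ K') (h0 : 0 ∉ K')
    (h1 : 1 ∈ K') (hNK : N ∈ K') (hsupp : ∀ m, m ∉ K' → tq N s r k K q m = 0) (x : ℝ) :
    (1 - ∑ a ∈ K, q a) ^ 2 + r * (‖1 - E 1 x‖ ^ 2 + s * ‖1 - E (N : ℤ) x‖ ^ 2) -
        4 * (∑ a ∈ K', tq N s r k K q a - ∑ a ∈ K, q a) ≤
      ‖1 - ∑ a ∈ K, (q a : ℂ) * E (k a) x‖ ^ 2 := by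
  classical
  set V : ℕ → ℝ := fun m => ‖1 - E (m : ℤ) x‖ ^ 2 with hV
  have hV0 : V 0 = 0 := by simp [hV, E_zero]
  have hVnn : ∀ m, 0 ≤ V m := fun m => by positivity
  have hV4 : ∀ m, V m ≤ 4 := by
    intro m
    have h : ‖1 - E (m : ℤ) x‖ ≤ 2 := by
      refine (norm_sub_le _ _).trans ?_
      rw [norm_one, norm_E]; norm_num
    have := pow_le_pow_left₀ (norm_nonneg (1 - E (m : ℤ) x)) h 2
    simp only [hV]; linarith
  have hqs : ∀ a, a ∉ K → q a = 0 := hq.supp
  have hqn := hq.nonneg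
  have hmem : ∀ {m : ℕ}, m ∈ K' → 1 ≤ m := by
    intro m hm
    rcases Nat.eq_zero_or_pos m with h | h
    · exact absurd (h ▸ hm) h0
    · exact h
  -- the polarisation
  have e1 := one_sub_polar K q (fun a => E (k a) x) (fun a _ => norm_E _ _)
  have e2 : ∑ a ∈ K, q a * ‖1 - E (k a) x‖ ^ 2 = ∑ a ∈ K', q a * V a := by
    rw [← Finset.sum_subset hKK (fun a _ ha => by rw [hqs a ha, zero_mul])]
    refine Finset.sum_congr rfl fun a _ => ?_
    have := nV_natAbs (k a) x
    rw [hk a] at this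
    rw [← this]
  -- cc vanishes outside K'
  have hccnn : ∀ m, 0 ≤ cc k K q m := by
    intro m
    unfold cc
    refine Finset.sum_nonneg fun a _ => Finset.sum_nonneg fun b _ => ?_
    split_ifs
    · exact mul_nonneg (hqn a) (hqn b)
    · exact le_rfl
  have hrhs : ∀ m, 0 ≤ rhs N s r m := by
    intro m
    unfold rhs
    refine add_nonneg ?_ ?_
    · split_ifs
      · exact hr
      · exact le_rfl
    · split_ifs
      · positivity
      · exact le_rfl
  have hccV : ∀ m, m ∉ K' → cc k K q m * V m = 0 := by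
    intro m hm
    rcases Nat.eq_zero_or_pos m with h | h
    · rw [h, hV0, mul_zero]
    · have h2 := hsupp m hm
      unfold tq at h2
      rw [if_neg (by omega)] at h2
      have h3 := hccnn m
      have h4 := hrhs m
      have h5 : cc k K q m = 0 := by linarith
      rw [h5, zero_mul]
  have e3 : ∑ a ∈ K, ∑ b ∈ K, q a * q b * ‖E (k a) x - E (k b) x‖ ^ 2 =
      ∑ m ∈ K', cc k K q m * V m := by
    set M : Finset ℕ := K' ∪ (K ×ˢ K).image (fun p => (k p.1 - k p.2).natAbs) with hM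
    rw [Finset.sum_subset (s₂ := M) (f := fun m => cc k K q m * V m) Finset.subset_union_left
      (fun m _ hm => hccV m hm)]
    have e4 : ∀ m, cc k K q m * V m =
        ∑ a ∈ K, ∑ b ∈ K, if (k a - k b).natAbs = m then q a * q b * V m else 0 := by
      intro m
      unfold cc
      rw [Finset.sum_mul]
      refine Finset.sum_congr rfl fun a _ => ?_
      rw [Finset.sum_mul]
      refine Finset.sum_congr rfl fun b _ => ?_
      rw [ite_mul, zero_mul]
    simp_rw [e4]
    refine Eq.symm ?_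
    rw [Finset.sum_comm]
    refine Finset.sum_congr rfl fun a ha => ?_
    rw [Finset.sum_comm]
    refine Finset.sum_congr rfl fun b hb => ?_
    rw [Finset.sum_ite_eq M (k a - k b).natAbs (fun m => q a * q b * V m), if_pos, nV_sub]
    · simp only [hV]
      rw [nV_natAbs]
    · rw [hM, Finset.mem_union]
      right
      exact Finset.mem_image.2 ⟨(a, b), Finset.mem_product.2 ⟨ha, hb⟩, rfl⟩
  have e5 : ∑ a ∈ K, q a = ∑ a ∈ K', q a :=
    Finset.sum_subset hKK (fun a _ ha => hqs a ha)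
  have e6 : ∑ m ∈ K', rhs N s r m * V m = r * (V 1 + s * V N) := by
    unfold rhs
    simp_rw [add_mul, ite_mul, zero_mul]
    rw [Finset.sum_add_distrib, Finset.sum_ite_eq' K' 1 (fun m => r * V m), if_pos h1,
      Finset.sum_ite_eq' K' N (fun m => r * s * V m), if_pos hNK]
    ring
  have e7 : ∑ m ∈ K', tq N s r k K q m * V m =
      ∑ m ∈ K', rhs N s r m * V m + (∑ m ∈ K', cc k K q m * V m) / 2 := by
    rw [Finset.sum_div, ← Finset.sum_add_distrib]
    refine Finset.sum_congr rfl fun m hm => ?_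
    have := hmem hm
    unfold tq
    rw [if_neg (by omega)]
    ring
  have e8 : ∑ m ∈ K', (tq N s r k K q m - q m) * V m ≤ ∑ m ∈ K', (tq N s r k K q m - q m) * 4 := by
    refine Finset.sum_le_sum fun m hm => ?_
    refine mul_le_mul_of_nonneg_left (hV4 m) ?_
    have h2 := hmem hm
    have h3 := hq.ineq m h2
    unfold tq
    rw [if_neg (by omega)]
    linarith
  simp_rw [sub_mul] at e8
  rw [Finset.sum_sub_distrib, Finset.sum_sub_distrib, ← Finset.sum_mul, ← Finset.sum_mul] at e8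
  rw [e1, e2, e3]
  have e9 : ‖1 - E 1 x‖ ^ 2 + s * ‖1 - E (N : ℤ) x‖ ^ 2 = V 1 + s * V N := by
    simp only [hV]
    norm_num
  rw [e9, ← e6]
  rw [e5] at *
  linarith

end Pool.Agent.MP_d1728b_an.HLP
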